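import Pool.Agent.LibGMW.Key24

/-! The main inequality for effective classes. -/

open scoped Classical

namespace Pool.Agent.LibGMX

open Pool.Agent.LibGMM Pool.Agent.LibGMW MvPolynomial

variable {P R : Type} [Fintype P] [Fintype R] {n : ℕ} {m e : R → ℕ}
  {K : Type} [Field K] [Algebra ℂ K] {T : FormTensor P n m e} {l : P}

/-- `key_ineq` of LibGMMT. -/
theorem key (D : Multilin K T l) (hn : 3 ≤ n) (he : ∀ r, 1 ≤ e r) (hm : ∀ r, 1 ≤ m r)
    (hdet : ∀ i, l ≠ i → (matP T l i).det ≠ 0) (hs : ∀ i, l ≠ i → D.Small i)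
    (i j : P) (hli : l ≠ i) (hlj : l ≠ j) (hij : i ≠ j) (a : P ⊕ R → ℤ) (ha : a ∈ D.EffZ)
    (hneg : a (Sum.inl i) < 0) : - a (Sum.inl i) ≤ (n - 1) * a (Sum.inl j) := by
  have hdims : ∀ j, 1 ≤ dims (P := P) n m j := by
    rintro (p | r)
    · exact (by omega : 1 ≤ n)
    · exact hm r
  exact D.key_ineq hn he hdims hdet hs i j hli hlj hij a ha hneg

end Pool.Agent.LibGMX
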