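import Pool.Agent.LibGMX.KrH
import Pool.Agent.LibGMW.Base
import Pool.Agent.LibGMM.H1

/-! TASK KRN: the coordinates of the factors different from one of large dimension are algebraically
independent. -/

open scoped Classical

namespace Pool.Agent.LibGMX

open Pool.Agent.LibGMM Pool.Agent.LibGMW MvPolynomial

variable {P R : Type} [Fintype P] [Fintype R] {n : ℕ} {m e : R → ℕ}
  {K : Type} [Field K] [Algebra ℂ K] {T : FormTensor P n m e} {l : P}

/-- Two evaluations agree on a multihomogeneous polynomial if they agree on the groups which occur. -/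
private theorem KrN_aeval_congr {J : Type} [Fintype J] {m : J → ℕ} {A : Type} [CommRing A]
    [Algebra ℂ A] (G : MvPolynomial (Σ j, Fin (m j + 1)) ℂ) (e : J → ℕ) (hG : MultiHom G e)
    (w w' : (Σ j, Fin (m j + 1)) → A) (h : ∀ v : Σ j, Fin (m j + 1), e v.1 ≠ 0 → w v = w' v) :
    aeval w G = aeval w' G := by
  have h1 : ∀ v ∈ G.vars, e v.1 ≠ 0 := by
    intro v hv
    obtain ⟨c, hc, hvc⟩ := (mem_vars_iff_mem_support v).1 hv
    have h2 := hG c hc v.1
    intro h3
    rw [h3] at h2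
    have h4 := (Finset.sum_eq_zero_iff.1 h2) v.2 (Finset.mem_univ _)
    rw [Finsupp.mem_support_iff] at hvc
    exact hvc h4
  rw [aeval_def, aeval_def]
  exact eval₂Hom_congr' rfl (fun i hi _ => h i (h1 i hi)) rfl

/-- A multihomogeneous polynomial of positive degree in a group is zero where the coordinates of the
group are zero. -/
private theorem KrN_eval_zero {J : Type} [Fintype J] {m : J → ℕ} {A : Type} [CommRing A]
    (f : ℂ →+* A) (G : MvPolynomial (Σ j, Fin (m j + 1)) ℂ) (e : J → ℕ) (hG : MultiHom G e)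
    (w : (Σ j, Fin (m j + 1)) → A) (r : J) (her : 1 ≤ e r) (h : ∀ t, w ⟨r, t⟩ = 0) :
    eval₂Hom f w G = 0 := by
  rw [coe_eval₂Hom, eval₂_eq']
  refine Finset.sum_eq_zero fun c hc => ?_
  have h1 := hG c hc r
  have h2 : ∃ t, c ⟨r, t⟩ ≠ 0 := by
    by_contra hcon
    push Not at hcon
    rw [Finset.sum_eq_zero (fun t _ => hcon t)] at h1
    omega
  obtain ⟨t, ht⟩ := h2
  refine mul_eq_zero_of_right _ ?_
  refine Finset.prod_eq_zero (Finset.mem_univ (⟨r, t⟩ : Σ j, Fin (m j + 1))) ?_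
  rw [h t]
  exact zero_pow ht

private theorem KrN_comp {σ τ k : Type} [Field k] [Algebra ℂ k]
    (ι : MvPolynomial σ ℂ →ₐ[ℂ] k) (G : MvPolynomial σ ℂ) :
    aeval (fun v : σ => (C (ι (X v)) : MvPolynomial τ k)) G = C (ι G) := by
  let θ : MvPolynomial σ ℂ →ₐ[ℂ] MvPolynomial τ k :=
    (IsScalarTower.toAlgHom ℂ k (MvPolynomial τ k)).comp ι
  have h1 := MvPolynomial.aeval_unique θ
  exact (congrArg (fun g => g G) h1).symm

/-- The values of the variables under the homomorphism `φ`. -/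
private noncomputable def KrN_u {k : Type} [Field k] [Algebra ℂ k] (r : R)
    (ι : MvPolynomial (Σ j : P ⊕ R, Fin (dims n m j + 1)) ℂ →ₐ[ℂ] k) :
    (j : P ⊕ R) → Fin (dims n m j + 1) → MvPolynomial (Fin (m r + 1)) k :=
  Function.update (fun j t => C (ι (X ⟨j, t⟩))) (Sum.inr r) (fun t => X t)

/-- The homomorphism `φ`. -/
private noncomputable def KrN_φ {k : Type} [Field k] [Algebra ℂ k] (r : R)
    (ι : MvPolynomial (Σ j : P ⊕ R, Fin (dims n m j + 1)) ℂ →ₐ[ℂ] k) :
    MvPolynomial (Σ j : P ⊕ R, Fin (dims n m j + 1)) ℂ →ₐ[ℂ] MvPolynomial (Fin (m r + 1)) k :=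
  aeval fun v : Σ j : P ⊕ R, Fin (dims n m j + 1) => KrN_u r ι v.1 v.2

omit [Fintype P] [Fintype R] in
private theorem KrN_ur {k : Type} [Field k] [Algebra ℂ k] (r : R)
    (ι : MvPolynomial (Σ j : P ⊕ R, Fin (dims n m j + 1)) ℂ →ₐ[ℂ] k) (t : Fin (m r + 1)) :
    KrN_u r ι (Sum.inr r) t = X t := by
  unfold KrN_u
  rw [Function.update_self]

omit [Fintype P] [Fintype R] in
private theorem KrN_uj {k : Type} [Field k] [Algebra ℂ k] (r : R)
    (ι : MvPolynomial (Σ j : P ⊕ R, Fin (dims n m j + 1)) ℂ →ₐ[ℂ] k) (j : P ⊕ R)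
    (hj : j ≠ Sum.inr r) (t : Fin (dims n m j + 1)) :
    KrN_u r ι j t = C (ι (X ⟨j, t⟩)) := by
  unfold KrN_u
  rw [Function.update_of_ne hj]

omit [Fintype P] [Fintype R] in
private theorem KrN_φX {k : Type} [Field k] [Algebra ℂ k] (r : R)
    (ι : MvPolynomial (Σ j : P ⊕ R, Fin (dims n m j + 1)) ℂ →ₐ[ℂ] k) (j : P ⊕ R)
    (t : Fin (dims n m j + 1)) : KrN_φ r ι (X ⟨j, t⟩) = KrN_u r ι j t := by
  unfold KrN_φ
  exact aeval_X _ _

private theorem KrN_φG {k : Type} [Field k] [Algebra ℂ k] (r : R)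
    (ι : MvPolynomial (Σ j : P ⊕ R, Fin (dims n m j + 1)) ℂ →ₐ[ℂ] k)
    (G : MvPolynomial (Σ j : P ⊕ R, Fin (dims n m j + 1)) ℂ) (d : P ⊕ R → ℕ) (hG : MultiHom G d)
    (hd : d (Sum.inr r) = 0) : KrN_φ r ι G = C (ι G) := by
  rw [← KrN_comp ι G]
  unfold KrN_φ
  refine KrN_aeval_congr G d hG _ _ fun v hv => ?_
  have hv' : v.1 ≠ Sum.inr r := by
    intro hc
    rw [hc] at hv
    exact hv hd
  exact KrN_uj r ι v.1 hv' v.2

/-- The equations have no constant term. -/
private theorem KrN_cc {k : Type} [Field k] [Algebra ℂ k] (T : FormTensor P n m e) (l : P) (r : R)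
    (her : 1 ≤ e r) (ι : MvPolynomial (Σ j : P ⊕ R, Fin (dims n m j + 1)) ℂ →ₐ[ℂ] k)
    (a : Fin (n + 1)) : constantCoeff (KrN_φ r ι (eqn T l a)) = 0 := by
  unfold eqn
  rw [map_sum, map_sum]
  refine Finset.sum_eq_zero fun t _ => ?_
  rw [map_mul, map_mul]
  refine mul_eq_zero_of_left ?_ _
  unfold FormTensor.entry KrN_φ
  rw [aeval_rename, MvPolynomial.map_aeval]
  refine KrN_eval_zero _ (T.coeff t) e (T.homog t) _ r her fun s => ?_
  change constantCoeff (KrN_u r ι (Sum.inr r) s) = 0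
  rw [KrN_ur, constantCoeff_X]

private theorem KrN_core {k : Type} [Field k] [Algebra ℂ k] (D : Multilin K T l) (r : R)
    (her : 1 ≤ e r) (ι : MvPolynomial (Σ j : P ⊕ R, Fin (dims n m j + 1)) ℂ →ₐ[ℂ] k)
    (hι : Function.Injective ι)
    (G : MvPolynomial (Σ j : P ⊕ R, Fin (dims n m j + 1)) ℂ) (d : P ⊕ R → ℕ) (hG : MultiHom G d)
    (hl : d (Sum.inl l) = 0) (hd : d (Sum.inr r) = 0)
    (h0 : aeval (fun v : Σ j, Fin (dims n m j + 1) => (D.x v.1 v.2 : K)) G = 0) (hG0 : G ≠ 0) :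
    m r + 1 ≤ n + 1 := by
  have hunit : ∀ x, x ≠ 0 → IsUnit (C (ι x) : MvPolynomial (Fin (m r + 1)) k) := by
    intro x hx
    have h1 : ι x ≠ 0 := fun h2 => hx (hι (by rw [h2, map_zero]))
    exact (isUnit_iff_ne_zero.2 h1).map (C : k →+* MvPolynomial (Fin (m r + 1)) k)
  have hmem : ∀ t : Fin (m r + 1), ∃ M : ℕ, (X t : MvPolynomial (Fin (m r + 1)) k) ^ M ∈
      Ideal.span (Set.range fun a => KrN_φ r ι (eqn T l a)) := by
    intro t
    let s : (j : P ⊕ R) → Fin (dims n m j + 1) :=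
      Function.update (fun _ => 0) (Sum.inr r) t
    have hsr : s (Sum.inr r) = t := Function.update_self _ _ _
    obtain ⟨M, hM⟩ := D.relations G d hG hl h0 s
    refine ⟨M, ?_⟩
    have h1 := Ideal.mem_map_of_mem (KrN_φ r ι) hM
    rw [Ideal.map_span, ← Set.range_comp] at h1
    have h2 : KrN_φ r ι ((∏ j ∈ Finset.univ.erase (Sum.inl l), X ⟨j, s j⟩) ^ M * G) =
        (X t : MvPolynomial (Fin (m r + 1)) k) ^ M *
          ((∏ j ∈ (Finset.univ.erase (Sum.inl l)).erase (Sum.inr r), C (ι (X ⟨j, s j⟩))) ^ M *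
            C (ι G)) := by
      rw [map_mul, map_pow, map_prod, KrN_φG r ι G d hG hd,
        ← Finset.mul_prod_erase (Finset.univ.erase (Sum.inl l))
          (fun j => KrN_φ r ι (X ⟨j, s j⟩)) (Finset.mem_erase.2 ⟨Sum.inr_ne_inl, Finset.mem_univ _⟩),
        mul_pow, mul_assoc, KrN_φX, KrN_ur, hsr]
      congr 3
      refine Finset.prod_congr rfl fun j hj => ?_
      rw [KrN_φX, KrN_uj r ι j (Finset.mem_erase.1 hj).1]
    rw [h2] at h1
    have h3 : IsUnit ((∏ j ∈ (Finset.univ.erase (Sum.inl l)).erase (Sum.inr r),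
        (C (ι (X ⟨j, s j⟩)) : MvPolynomial (Fin (m r + 1)) k)) ^ M * C (ι G)) := by
      refine IsUnit.mul (IsUnit.pow _ ?_) (hunit G hG0)
      rw [IsUnit.prod_iff]
      intro j _
      exact hunit _ (X_ne_zero _)
    exact (Ideal.mul_unit_mem_iff_mem _ h3).1 h1
  exact card_le_of_pow_mem k (m r + 1) (n + 1) (fun a => KrN_φ r ι (eqn T l a))
    (fun a => KrN_cc T l r her ι a) hmem

/-- The coordinates of the factors with labels `≠ l, r` are independent, if `n + 1 ≤ m r`: suppose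
`G ≠ 0`. Let `k` be the fraction field of `MvPolynomial (Σ j, Fin (dims n m j + 1)) ℂ` and `φ` the
homomorphism of this ring to `MvPolynomial (Fin (m r + 1)) k`, `X (j, t) ↦ C (X (j, t))` for `j ≠ r`,
`X (r, t) ↦ X t`. By `D.relations` (for all `s`, `s r` arbitrary) some power of `X t` times the unit
`C (..)` times `φ G = C G` is in the ideal generated by the `n + 1` polynomials `φ (eqn T l a)`, which
have no constant term (they are homogeneous of degree `e r ≥ 1` in the `X t`: `eqn` is a sum of products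
of `T.entry t` and of variables with labels in `P`; `T.entry t = rename .. (T.coeff t)`,
`T.homog`; it is enough that every monomial of `T.coeff t` contains a variable of the group `r`). By
`card_le_of_pow_mem`, `m r + 1 ≤ n + 1`. (`MultiHom G d`, `d r = 0`: no variable of the group `r` occurs
in `G`, so `φ G = C (algebraMap _ _ G)`.) -/
theorem no_relation (D : Multilin K T l) (r : R) (hr : n + 1 ≤ m r) (her : 1 ≤ e r)
    (G : MvPolynomial (Σ j : P ⊕ R, Fin (dims n m j + 1)) ℂ) (d : P ⊕ R → ℕ) (hG : MultiHom G d)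
    (hl : d (Sum.inl l) = 0) (hd : d (Sum.inr r) = 0)
    (h0 : aeval (fun v : Σ j, Fin (dims n m j + 1) => (D.x v.1 v.2 : K)) G = 0) : G = 0 := by
  by_contra hG0
  have h1 := KrN_core D r her
    (IsScalarTower.toAlgHom ℂ (MvPolynomial (Σ j : P ⊕ R, Fin (dims n m j + 1)) ℂ)
      (FractionRing (MvPolynomial (Σ j : P ⊕ R, Fin (dims n m j + 1)) ℂ)))
    (IsFractionRing.injective _ _) G d hG hl hd h0 hG0
  omega

end Pool.Agent.LibGMX
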