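import Pool.Agent.LibGMW.NumBig

/-! Bigness, if one coordinate is zero. -/

open scoped Classical

namespace Pool.Agent.LibGMX

open Pool.Agent.LibGMW

variable {P R : Type} [Fintype P] [Fintype R]

/-- A class whose coordinates are positive, except that the one with label `p` may be zero, is big:
`n ∑ d_j H_j - H_p` is effective, by the flop. -/
theorem big_of_pos_except (n : ℕ) (e : R → ℕ) (E : P → Set (P ⊕ R → ℝ))
    (hadd : ∀ l, ∀ b ∈ E l, ∀ b' ∈ E l, b + b' ∈ E l)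
    (hsmul : ∀ l, ∀ c : ℝ, 0 ≤ c → ∀ b ∈ E l, c • b ∈ E l)
    (hnonneg : ∀ l (b : P ⊕ R → ℝ), (∀ j, 0 ≤ b j) → b ∈ E l)
    (hcongr : ∀ l (b b' : P ⊕ R → ℝ), (∀ j, j ≠ Sum.inl l → b j = b' j) → b ∈ E l → b' ∈ E l)
    (hflip : ∀ l i, l ≠ i → ∀ b ∈ E l, flip n e l i b ∈ E i) (l p : P) (h : l ≠ p)
    (v : P ⊕ R → ℝ) (hv : ∀ j, j ≠ Sum.inl l → j ≠ Sum.inl p → 0 < v j) (hv0 : 0 ≤ v (Sum.inl p)) :
    ∃ ε : ℝ, 0 < ε ∧ (fun j => v j - ε) ∈ E l := by
  have hlp : (Sum.inl l : P ⊕ R) ≠ Sum.inl p := fun h' => h (Sum.inl_injective h')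
  obtain ⟨δ, hδ1, hδ0⟩ : ∃ δ : ℝ, (∀ j : P ⊕ R, j ≠ Sum.inl l → j ≠ Sum.inl p → δ < v j) ∧
      0 < δ := by
    have hδ : ∀ᶠ δ : ℝ in nhdsWithin 0 (Set.Ioi 0),
        (∀ j : P ⊕ R, j ≠ Sum.inl l → j ≠ Sum.inl p → δ < v j) ∧ 0 < δ := by
      refine Filter.Eventually.and (Filter.eventually_all.2 fun j => ?_) self_mem_nhdsWithin
      by_cases hj : j = Sum.inl l
      · exact Filter.Eventually.of_forall fun δ h => absurd hj h
      · by_cases hj' : j = Sum.inl p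
        · exact Filter.Eventually.of_forall fun δ _ h => absurd hj' h
        · have h1 : ∀ᶠ δ : ℝ in nhds 0, δ < v j := gt_mem_nhds (hv j hj hj')
          exact (h1.filter_mono nhdsWithin_le_nhds).mono fun δ h _ _ => h
    exact hδ.exists
  set q : ℕ := 1 + ∑ j : P ⊕ R, n * degs e j with hq
  have hn1 : (1 : ℝ) ≤ q := by exact_mod_cast (by omega : 1 ≤ q)
  have hqj : ∀ j : P ⊕ R, ((n * degs e j : ℕ) : ℝ) ≤ q := by
    intro j
    have h1 : n * degs e j ≤ ∑ j : P ⊕ R, n * degs e j :=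
      Finset.single_le_sum (f := fun j : P ⊕ R => n * degs e j) (fun _ _ => Nat.zero_le _)
        (Finset.mem_univ j)
    exact_mod_cast (by omega : n * degs e j ≤ q)
  set s : ℝ := δ / (2 * q) with hs
  have hq0 : (0 : ℝ) < q := by linarith
  have hs0 : 0 < s := by positivity
  have hsq : s * q = δ / 2 := by rw [hs]; field_simp
  have hsδ : s ≤ δ / 2 := by
    rw [← hsq]
    nlinarith
  set W : P ⊕ R → ℝ := flip n e p l (fun j => if j = Sum.inl l then 1 else 0) with hW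
  have hWE : W ∈ E l := by
    refine hflip p l h.symm _ (hnonneg p _ fun j => ?_)
    split_ifs <;> norm_num
  have hWp : W (Sum.inl p) = -1 := by
    simp [hW, LibGMW.flip]
  have hWj : ∀ j, j ≠ Sum.inl l → j ≠ Sum.inl p → W j = ((n * degs e j : ℕ) : ℝ) := by
    intro j hj hj'
    simp [hW, LibGMW.flip, hj, hj']
  refine ⟨s / 2, by positivity, ?_⟩
  have h1 : (fun j => if j = Sum.inl l then 0 else v j - s / 2 - s * W j) ∈ E l := by
    refine hnonneg l _ fun j => ?_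
    split_ifs with hj
    · exact le_rfl
    · by_cases hj' : j = Sum.inl p
      · rw [hj', hWp]
        linarith
      · rw [hWj j hj hj']
        have h2 := hδ1 j hj hj'
        have h3 : s * ((n * degs e j : ℕ) : ℝ) ≤ s * q := mul_le_mul_of_nonneg_left (hqj j) hs0.le
        linarith
  refine hcongr l _ _ ?_ (hadd l _ h1 _ (hsmul l s hs0.le W hWE))
  intro j hj
  simp only [Pi.add_apply, Pi.smul_apply, smul_eq_mul, if_neg hj]
  ring

/-- `κ + b` is big, if `b` is effective, the coordinates of `b` with labels in `P`, `≠ l`, are not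
negative and at most one of them is zero, `κ ≥ 0` and the coordinates of `b` at which `κ` is zero are
positive. -/
theorem big_add (n : ℕ) (e : R → ℕ) (E : P → Set (P ⊕ R → ℝ))
    (hadd : ∀ l, ∀ b ∈ E l, ∀ b' ∈ E l, b + b' ∈ E l)
    (hsmul : ∀ l, ∀ c : ℝ, 0 ≤ c → ∀ b ∈ E l, c • b ∈ E l)
    (hnonneg : ∀ l (b : P ⊕ R → ℝ), (∀ j, 0 ≤ b j) → b ∈ E l)
    (hcongr : ∀ l (b b' : P ⊕ R → ℝ), (∀ j, j ≠ Sum.inl l → b j = b' j) → b ∈ E l → b' ∈ E l)
    (hflip : ∀ l i, l ≠ i → ∀ b ∈ E l, flip n e l i b ∈ E i) (l : P) (hl : ∃ p, l ≠ p)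
    (κ : P ⊕ R → ℝ) (hκP : ∀ p, κ (Sum.inl p) = 0) (hκR : ∀ r, 0 ≤ κ (Sum.inr r))
    (b : P ⊕ R → ℝ) (hb : b ∈ E l) (hbP : ∀ p, l ≠ p → 0 ≤ b (Sum.inl p))
    (hb1 : ∀ p p', l ≠ p → l ≠ p' → p ≠ p' → b (Sum.inl p) = 0 → 0 < b (Sum.inl p'))
    (hb2 : ∀ r, κ (Sum.inr r) = 0 → 0 < b (Sum.inr r)) :
    ∃ ε : ℝ, 0 < ε ∧ (fun j => κ j + b j - ε) ∈ E l := by
  have ht : ∀ᶠ t : ℝ in nhdsWithin 0 (Set.Ioi 0),
      (∀ r, 0 < κ (Sum.inr r) → 0 < κ (Sum.inr r) + t * b (Sum.inr r)) ∧ t < 1 ∧ 0 < t := by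
    refine Filter.Eventually.and (Filter.eventually_all.2 fun r => ?_)
      (Filter.Eventually.and ?_ self_mem_nhdsWithin)
    · by_cases hr : 0 < κ (Sum.inr r)
      · have hcont : Continuous fun t : ℝ => κ (Sum.inr r) + t * b (Sum.inr r) := by fun_prop
        have h1 : ∀ᶠ t : ℝ in nhds 0, 0 < κ (Sum.inr r) + t * b (Sum.inr r) := by
          apply hcont.continuousAt.eventually (lt_mem_nhds ?_)
          simpa using hr
        exact (h1.filter_mono nhdsWithin_le_nhds).mono fun t h _ => h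
      · exact Filter.Eventually.of_forall fun t h => absurd h hr
    · exact (gt_mem_nhds (by norm_num : (0 : ℝ) < 1)).filter_mono nhdsWithin_le_nhds
  obtain ⟨t, htR, ht1, ht0⟩ := ht.exists
  obtain ⟨p, hp, hpp⟩ : ∃ p, l ≠ p ∧ ∀ p', l ≠ p' → p ≠ p' → 0 < b (Sum.inl p') := by
    by_cases hz : ∃ p, l ≠ p ∧ b (Sum.inl p) = 0
    · obtain ⟨p, hp, hp0⟩ := hz
      exact ⟨p, hp, fun p' hp' hpp' => hb1 p p' hp hp' hpp' hp0⟩
    · obtain ⟨p, hp⟩ := hl
      refine ⟨p, hp, fun p' hp' _ => lt_of_le_of_ne (hbP p' hp') fun h0 => hz ⟨p', hp', h0.symm⟩⟩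
  obtain ⟨ε, hε, h1⟩ := big_of_pos_except n e E hadd hsmul hnonneg hcongr hflip l p hp
    (fun j => κ j + t * b j) (by
      rintro (p' | r) hj hj'
      · rw [hκP, zero_add]
        exact mul_pos ht0 (hpp p' (fun h => hj (by rw [h])) (fun h => hj' (by rw [h])))
      · by_cases hr : κ (Sum.inr r) = 0
        · rw [hr, zero_add]
          exact mul_pos ht0 (hb2 r hr)
        · exact htR r (lt_of_le_of_ne (hκR r) (Ne.symm hr))) (by
      rw [hκP, zero_add]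
      exact mul_nonneg ht0.le (hbP p hp))
  refine ⟨ε, hε, ?_⟩
  have h2 := hadd l _ h1 _ (hsmul l (1 - t) (by linarith) b hb)
  refine hcongr l _ _ (fun j _ => ?_) h2
  simp only [Pi.add_apply, Pi.smul_apply, smul_eq_mul]
  ring

end Pool.Agent.LibGMX
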