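import Pool.Agent.LibGMX.NumP

/-! The case `n = 1`. -/

open scoped Classical

namespace Pool.Agent.LibGMX

open Pool.Agent.LibGMW

variable {P R : Type}

theorem flip_old {A : Type} [CommRing A] (n : ℕ) (e : R → ℕ) (l i : P) (b : P ⊕ R → A) :
    LibGMW.flip n e l i b (Sum.inl l) = - b (Sum.inl i) := by simp [LibGMW.flip]

theorem flip_inl {A : Type} [CommRing A] (n : ℕ) (e : R → ℕ) (l i j : P) (b : P ⊕ R → A)
    (hl : j ≠ l) (hi : j ≠ i) :
    LibGMW.flip n e l i b (Sum.inl j) = b (Sum.inl j) + n * b (Sum.inl i) := by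
  simp [LibGMW.flip, hl, hi]

theorem flip_inr {A : Type} [CommRing A] (n : ℕ) (e : R → ℕ) (l i : P) (r : R) (b : P ⊕ R → A) :
    LibGMW.flip n e l i b (Sum.inr r) = b (Sum.inr r) + n * e r * b (Sum.inl i) := by
  simp [LibGMW.flip]

/-- Termination, if there are three labels in `P` and `n = 1` (the group generated by the flops acts on
the coordinates with labels in `P` through a finite group). -/
theorem terminate_three [Fintype P] (e : R → ℕ) (hP : Fintype.card P = 3) (l : P) (b : P ⊕ R → ℝ)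
    (hb : b (Sum.inl l) = 0) :
    ∃ w, Valid l w ∧ ∀ p : P, 0 ≤ act 1 e l w b (Sum.inl p) := by
  obtain ⟨i, j, hli, hlj, hij, huniv⟩ : ∃ i j : P, l ≠ i ∧ l ≠ j ∧ i ≠ j ∧
      ∀ p : P, p = l ∨ p = i ∨ p = j := by
    have h1 : (Finset.univ.erase l).card = 2 := by
      rw [Finset.card_erase_of_mem (Finset.mem_univ _), Finset.card_univ, hP]
    obtain ⟨i, j, hij, hs⟩ := Finset.card_eq_two.1 h1
    have h2 : i ∈ Finset.univ.erase l := by rw [hs]; simp
    have h3 : j ∈ Finset.univ.erase l := by rw [hs]; simp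
    refine ⟨i, j, (Finset.ne_of_mem_erase h2).symm, (Finset.ne_of_mem_erase h3).symm, hij,
      fun p => ?_⟩
    by_cases hp : p = l
    · exact Or.inl hp
    · right
      have h4 : p ∈ Finset.univ.erase l := Finset.mem_erase.2 ⟨hp, Finset.mem_univ _⟩
      rw [hs] at h4
      simpa using h4
  -- the flops, if the coordinate at `i` is negative
  have main : ∀ i j : P, l ≠ i → l ≠ j → i ≠ j → (∀ p : P, p = l ∨ p = i ∨ p = j) →
      b (Sum.inl i) < 0 → ∃ w, Valid l w ∧ ∀ p : P, 0 ≤ act 1 e l w b (Sum.inl p) := by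
    intro i j hli hlj hij huniv hneg
    have e1 : act 1 e l [i] b = LibGMW.flip 1 e l i b := rfl
    have f1 : act 1 e l [i] b (Sum.inl l) = - b (Sum.inl i) := by rw [e1, flip_old]
    have f2 : act 1 e l [i] b (Sum.inl j) = b (Sum.inl j) + b (Sum.inl i) := by
      rw [e1, flip_inl 1 e l i j b hlj.symm hij.symm]
      push_cast; ring
    have v1 : Valid l [i] := ⟨hli, trivial⟩
    have f3 : act 1 e l [i] b (Sum.inl i) = 0 := act_lab 1 e l [i] v1 b hb
    by_cases h1 : 0 ≤ b (Sum.inl j) + b (Sum.inl i)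
    · refine ⟨[i], v1, fun p => ?_⟩
      rcases huniv p with rfl | rfl | rfl
      · rw [f1]; linarith
      · rw [f3]
      · rw [f2]; exact h1
    push Not at h1
    have v2 : Valid l [j, i] := ⟨hij, v1⟩
    have e2 : act 1 e l [j, i] b = LibGMW.flip 1 e i j (act 1 e l [i] b) := rfl
    have g1 : act 1 e l [j, i] b (Sum.inl i) = - (b (Sum.inl j) + b (Sum.inl i)) := by
      rw [e2, flip_old, f2]
    have g2 : act 1 e l [j, i] b (Sum.inl l) = b (Sum.inl j) := by
      rw [e2, flip_inl 1 e i j l _ hli hlj, f1, f2]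
      push_cast; ring
    have g3 : act 1 e l [j, i] b (Sum.inl j) = 0 := act_lab 1 e l [j, i] v2 b hb
    by_cases h2 : 0 ≤ b (Sum.inl j)
    · refine ⟨[j, i], v2, fun p => ?_⟩
      rcases huniv p with rfl | rfl | rfl
      · rw [g2]; exact h2
      · rw [g1]; linarith
      · rw [g3]
    push Not at h2
    have v3 : Valid l [l, j, i] := ⟨hlj.symm, v2⟩
    have e3 : act 1 e l [l, j, i] b = LibGMW.flip 1 e j l (act 1 e l [j, i] b) := rfl
    have k1 : act 1 e l [l, j, i] b (Sum.inl j) = - b (Sum.inl j) := by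
      rw [e3, flip_old, g2]
    have k2 : act 1 e l [l, j, i] b (Sum.inl i) = - b (Sum.inl i) := by
      rw [e3, flip_inl 1 e j l i _ hij hli.symm, g1, g2]
      push_cast; ring
    have k3 : act 1 e l [l, j, i] b (Sum.inl l) = 0 := act_lab 1 e l [l, j, i] v3 b hb
    refine ⟨[l, j, i], v3, fun p => ?_⟩
    rcases huniv p with h | h | h
    · rw [h, k3]
    · rw [h, k2]; linarith
    · rw [h, k1]; linarith
  by_cases h1 : 0 ≤ b (Sum.inl i)
  · by_cases h2 : 0 ≤ b (Sum.inl j)
    · refine ⟨[], trivial, fun p => ?_⟩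
      change 0 ≤ b (Sum.inl p)
      rcases huniv p with rfl | rfl | rfl
      · exact hb.ge
      · exact h1
      · exact h2
    · exact main j i hlj hli hij.symm (fun p => by rcases huniv p with h | h | h <;> simp [h])
        (not_le.1 h2)
  · exact main i j hli hlj hij huniv (not_le.1 h1)

variable [Fintype P] [Fintype R]

section

variable (e : R → ℕ) (he : ∀ r, 1 ≤ e r) (Z : P → Set (P ⊕ R → ℤ))
  (hZ : ∀ l, ∀ a ∈ Z l, a (Sum.inl l) = 0)
  (hflip : ∀ l i, l ≠ i → ∀ a ∈ Z l, LibGMW.flip 1 e l i a ∈ Z i)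
  (hsoft : ∀ l i j h, l ≠ i → l ≠ j → l ≠ h → i ≠ j → i ≠ h → j ≠ h → ∀ a ∈ Z l,
    a (Sum.inl i) ≤ 0 → a (Sum.inl j) ≤ 0 → 0 ≤ a (Sum.inl h))

include hZ hflip hsoft

/-- The sum of the coordinates with labels in `P` of an effective class is not negative, if `n = 1` and
there are at least five labels in `P`. -/
theorem sumP_nonneg_one (hcard : 5 ≤ Fintype.card P) (l : P) (a : P ⊕ R → ℤ) (ha : a ∈ Z l) :
    0 ≤ ∑ p : P, a (Sum.inl p) := by
  by_cases hall : ∀ p : P, 0 ≤ a (Sum.inl p)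
  · exact Finset.sum_nonneg fun p _ => hall p
  push Not at hall
  obtain ⟨i, hi⟩ := hall
  have hal := hZ l a ha
  have hli : l ≠ i := by
    rintro rfl
    rw [hal] at hi
    exact lt_irrefl _ hi
  have hcardS : 3 ≤ ((Finset.univ.erase l).erase i).card := by
    rw [Finset.card_erase_of_mem (Finset.mem_erase.mpr ⟨hli.symm, Finset.mem_univ i⟩),
      Finset.card_erase_of_mem (Finset.mem_univ l), Finset.card_univ]
    omega
  by_cases hex : ∃ j, l ≠ j ∧ i ≠ j ∧ a (Sum.inl j) < 0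
  · obtain ⟨j, hlj, hij, hj⟩ := hex
    have hnn : ∀ h, h ≠ i → h ≠ j → 0 ≤ a (Sum.inl h) := by
      intro h hhi hhj
      by_cases hhl : h = l
      · rw [hhl, hal]
      · exact hsoft l i j h hli hlj (Ne.symm hhl) hij (Ne.symm hhi) (Ne.symm hhj) a ha hi.le hj.le
    have hcardS' : 2 ≤ (((Finset.univ.erase l).erase i).erase j).card := by
      rw [Finset.card_erase_of_mem (Finset.mem_erase.mpr ⟨hij.symm, Finset.mem_erase.mpr
        ⟨hlj.symm, Finset.mem_univ j⟩⟩)]
      omega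
    obtain ⟨h, hh, h', hh', hhh⟩ := Finset.one_lt_card.mp (by omega : 1 <
      (((Finset.univ.erase l).erase i).erase j).card)
    simp only [Finset.mem_erase, Finset.mem_univ, and_true] at hh hh'
    have h1 := hflip l i hli a ha
    have h2 := hflip i j hij _ h1
    have v1 : ∀ x, x ≠ l → x ≠ i → x ≠ j →
        LibGMW.flip 1 e i j (LibGMW.flip 1 e l i a) (Sum.inl x) =
          a (Sum.inl x) + 2 * a (Sum.inl i) + a (Sum.inl j) := by
      intro x hxl hxi hxj
      rw [flip_inl 1 e i j x _ hxi hxj, flip_inl 1 e l i x _ hxl hxi,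
        flip_inl 1 e l i j _ hlj.symm hij.symm]
      push_cast; ring
    have v2 : LibGMW.flip 1 e i j (LibGMW.flip 1 e l i a) (Sum.inl l) = a (Sum.inl j) := by
      rw [flip_inl 1 e i j l _ hli hlj, flip_old, flip_inl 1 e l i j _ hlj.symm hij.symm]
      push_cast; ring
    have hkey : ∃ x, x ≠ l ∧ x ≠ i ∧ x ≠ j ∧
        0 ≤ a (Sum.inl x) + 2 * a (Sum.inl i) + a (Sum.inl j) := by
      by_cases hneg : 0 ≤ a (Sum.inl h) + 2 * a (Sum.inl i) + a (Sum.inl j)
      · exact ⟨h, hh.2.2, hh.2.1, hh.1, hneg⟩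
      · push Not at hneg
        refine ⟨h', hh'.2.2, hh'.2.1, hh'.1, ?_⟩
        rw [← v1 h' hh'.2.2 hh'.2.1 hh'.1]
        refine hsoft j l h h' hlj.symm (Ne.symm hh.1) (Ne.symm hh'.1) (Ne.symm hh.2.2)
          (Ne.symm hh'.2.2) hhh _ h2 ?_ ?_
        · rw [v2]; exact hj.le
        · rw [v1 h hh.2.2 hh.2.1 hh.1]; exact hneg.le
    obtain ⟨x, hxl, hxi, hxj, hx⟩ := hkey
    rw [← Finset.add_sum_erase _ _ (Finset.mem_univ i),
      ← Finset.add_sum_erase _ _ (Finset.mem_erase.mpr ⟨hij.symm, Finset.mem_univ j⟩),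
      ← Finset.add_sum_erase _ _ (Finset.mem_erase.mpr ⟨hxj, Finset.mem_erase.mpr
        ⟨hxi, Finset.mem_univ x⟩⟩)]
    have h3 : 0 ≤ ∑ y ∈ ((Finset.univ.erase i).erase j).erase x, a (Sum.inl y) := by
      refine Finset.sum_nonneg fun y hy => ?_
      simp only [Finset.mem_erase, Finset.mem_univ, and_true] at hy
      exact hnn y hy.2.2 hy.2.1
    linarith
  · push Not at hex
    have hnn : ∀ h, h ≠ i → 0 ≤ a (Sum.inl h) := by
      intro h hhi
      by_cases hhl : h = l
      · rw [hhl, hal]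
      · exact hex h (Ne.symm hhl) (Ne.symm hhi)
    obtain ⟨h, h', h'', hh, hh', hh'', h12, h13, h23⟩ : ∃ h h' h'',
        h ∈ (Finset.univ.erase l).erase i ∧ h' ∈ (Finset.univ.erase l).erase i ∧
        h'' ∈ (Finset.univ.erase l).erase i ∧ h ≠ h' ∧ h ≠ h'' ∧ h' ≠ h'' := by
      obtain ⟨s, hs, hs3⟩ := Finset.exists_subset_card_eq hcardS
      obtain ⟨x, y, z, hxy, hxz, hyz, rfl⟩ := Finset.card_eq_three.1 hs3
      exact ⟨x, y, z, hs (by simp), hs (by simp), hs (by simp), hxy, hxz, hyz⟩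
    simp only [Finset.mem_erase, Finset.mem_univ, and_true] at hh hh' hh''
    have h1 := hflip l i hli a ha
    have v1 : ∀ x, x ≠ l → x ≠ i → LibGMW.flip 1 e l i a (Sum.inl x) =
          a (Sum.inl x) + a (Sum.inl i) := by
      intro x hxl hxi
      rw [flip_inl 1 e l i x _ hxl hxi]
      push_cast; ring
    have hkey : ∃ x, x ≠ l ∧ x ≠ i ∧ 0 ≤ a (Sum.inl x) + a (Sum.inl i) := by
      by_cases hneg : 0 ≤ a (Sum.inl h) + a (Sum.inl i)
      · exact ⟨h, hh.2, hh.1, hneg⟩
      · by_cases hneg' : 0 ≤ a (Sum.inl h') + a (Sum.inl i)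
        · exact ⟨h', hh'.2, hh'.1, hneg'⟩
        · push Not at hneg hneg'
          refine ⟨h'', hh''.2, hh''.1, ?_⟩
          rw [← v1 h'' hh''.2 hh''.1]
          refine hsoft i h h' h'' (Ne.symm hh.1) (Ne.symm hh'.1) (Ne.symm hh''.1) h12 h13 h23 _ h1
            ?_ ?_
          · rw [v1 h hh.2 hh.1]; exact hneg.le
          · rw [v1 h' hh'.2 hh'.1]; exact hneg'.le
    obtain ⟨x, hxl, hxi, hx⟩ := hkey
    rw [← Finset.add_sum_erase _ _ (Finset.mem_univ i),
      ← Finset.add_sum_erase _ _ (Finset.mem_erase.mpr ⟨hxi, Finset.mem_univ x⟩)]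
    have h3 : 0 ≤ ∑ y ∈ (Finset.univ.erase i).erase x, a (Sum.inl y) := by
      refine Finset.sum_nonneg fun y hy => ?_
      simp only [Finset.mem_erase, Finset.mem_univ, and_true] at hy
      exact hnn y hy.2
    linarith

include he

/-- The sum of all coordinates of an effective class is not negative, if `n = 1` and the coordinates at
the labels in `R`, which exist, of all its transforms are not negative. -/
theorem sum_nonneg_one (r : R) (hrest : ∀ l, ∀ a ∈ Z l, ∀ r : R, 0 ≤ a (Sum.inr r)) (l : P)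
    (a : P ⊕ R → ℤ) (ha : a ∈ Z l) : 0 ≤ ∑ j, a j := by
  have hR : ∀ r' : R, 0 ≤ a (Sum.inr r') := hrest l a ha
  by_cases hall : ∀ p : P, 0 ≤ a (Sum.inl p)
  · refine Finset.sum_nonneg ?_
    rintro (p | r') _
    · exact hall p
    · exact hR r'
  push Not at hall
  obtain ⟨i, hi⟩ := hall
  have hal := hZ l a ha
  have hli : l ≠ i := by
    rintro rfl
    rw [hal] at hi
    exact lt_irrefl _ hi
  have her : (1 : ℤ) ≤ e r := by exact_mod_cast he r
  have h1 := hflip l i hli a ha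
  have hri : (Sum.inr r : P ⊕ R) ≠ Sum.inl i := Sum.inr_ne_inl
  by_cases hex : ∃ j, l ≠ j ∧ i ≠ j ∧ a (Sum.inl j) < 0
  · obtain ⟨j, hlj, hij, hj⟩ := hex
    have hnn : ∀ h, h ≠ i → h ≠ j → 0 ≤ a (Sum.inl h) := by
      intro h hhi hhj
      by_cases hhl : h = l
      · rw [hhl, hal]
      · exact hsoft l i j h hli hlj (Ne.symm hhl) hij (Ne.symm hhi) (Ne.symm hhj) a ha hi.le hj.le
    have h2 := hflip i j hij _ h1
    have v1 : LibGMW.flip 1 e i j (LibGMW.flip 1 e l i a) (Sum.inr r) =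
          a (Sum.inr r) + e r * (2 * a (Sum.inl i) + a (Sum.inl j)) := by
      rw [flip_inr, flip_inr, flip_inl 1 e l i j _ hlj.symm hij.symm]
      push_cast; ring
    have h4 := hrest j _ h2 r
    rw [v1] at h4
    have h5 : 0 ≤ a (Sum.inr r) + (a (Sum.inl i) + a (Sum.inl j)) := by nlinarith
    rw [← Finset.add_sum_erase _ _ (Finset.mem_univ (Sum.inl i)),
      ← Finset.add_sum_erase _ _ (Finset.mem_erase.mpr
        ⟨fun h => hij (Sum.inl_injective h).symm, Finset.mem_univ (Sum.inl j)⟩),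
      ← Finset.add_sum_erase _ _ (Finset.mem_erase.mpr ⟨Sum.inr_ne_inl, Finset.mem_erase.mpr
        ⟨Sum.inr_ne_inl, Finset.mem_univ (Sum.inr r)⟩⟩)]
    have h3 : 0 ≤ ∑ y ∈ ((Finset.univ.erase (Sum.inl i)).erase (Sum.inl j)).erase (Sum.inr r),
        a y := by
      refine Finset.sum_nonneg fun y hy => ?_
      simp only [Finset.mem_erase, Finset.mem_univ, and_true] at hy
      rcases y with p | r'
      · exact hnn p (fun h => hy.2.2 (by rw [h])) (fun h => hy.2.1 (by rw [h]))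
      · exact hR r'
    linarith
  · push Not at hex
    have hnn : ∀ h, h ≠ i → 0 ≤ a (Sum.inl h) := by
      intro h hhi
      by_cases hhl : h = l
      · rw [hhl, hal]
      · exact hex h (Ne.symm hhl) (Ne.symm hhi)
    have h4 := hrest i _ h1 r
    rw [flip_inr] at h4
    push_cast at h4
    have h5 : 0 ≤ a (Sum.inr r) + a (Sum.inl i) := by nlinarith
    rw [← Finset.add_sum_erase _ _ (Finset.mem_univ (Sum.inl i)),
      ← Finset.add_sum_erase _ _ (Finset.mem_erase.mpr ⟨hri, Finset.mem_univ (Sum.inr r)⟩)]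
    have h3 : 0 ≤ ∑ y ∈ (Finset.univ.erase (Sum.inl i)).erase (Sum.inr r), a y := by
      refine Finset.sum_nonneg fun y hy => ?_
      simp only [Finset.mem_erase, Finset.mem_univ, and_true] at hy
      rcases y with p | r'
      · exact hnn p (fun h => hy.2 (by rw [h]))
      · exact hR r'
    linarith

end

end Pool.Agent.LibGMX
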