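import Pool.Agent.LibGMX.SoftN
import Pool.Agent.LibGMX.KrN
import Pool.Agent.LibGMW.Rel
import Pool.Agent.LibGMW.DetC

/-! TASK SOFTT: two inequalities for effective classes. -/

open scoped Classical

namespace Pool.Agent.LibGMX

open Pool.Agent.LibGMM Pool.Agent.LibGMW MvPolynomial

variable {P R : Type} [Fintype P] [Fintype R] {n : ℕ} {m e : R → ℕ}
  {K : Type} [Field K] [Algebra ℂ K] {T : FormTensor P n m e} {l i : P}

private theorem SoftT_two_indices {k : ℕ} (hk : 1 ≤ k) : ∃ r r' : Fin (k + 1), r ≠ r' := by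
  refine ⟨0, Fin.last k, ?_⟩
  intro h
  have h1 := congrArg Fin.val h
  simp only [Fin.val_zero, Fin.val_last] at h1
  omega

/-- Suppose `a j < 0`. By `isAlgebraic_of_neg` with `N = {l, i, j'}` and `Emb.exists_relation` (there
are two indices `r ≠ r'` of the group `j` as `1 ≤ dims n m j`) there is a relation `G ≠ 0` of multidegree
`e'` with `e' l = e' i = e' j' = 0`. By `Multilin.det_dvd` the determinant divides `G`; but it has
degree `(n + 1) * degs e j' > 0` in the group `j'` (`det_multiHom`, as at the end of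
`Multilin.exists_transcendental` in LibGMW/Tran.lean), and `G` has degree `0`. -/
theorem soft_two (D : Multilin K T l) (h : l ≠ i) (hdims : ∀ j, 1 ≤ dims (P := P) n m j)
    (hdet : (matP T l i).det ≠ 0) (hadj : ∃ a b, (D.mat i).adjugate a b ≠ 0) (he : ∀ r, 1 ≤ e r)
    (j j' : P ⊕ R) (hjl : j ≠ Sum.inl l) (hji : j ≠ Sum.inl i) (hjl' : j' ≠ Sum.inl l)
    (hji' : j' ≠ Sum.inl i) (hjj : j ≠ j') (a : P ⊕ R → ℤ) (ha : a ∈ D.EffZ)
    (hai : a (Sum.inl i) ≤ 0) (haj : a j' ≤ 0) : 0 ≤ a j := by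
  by_contra hneg
  push Not at hneg
  have hN : ∀ h ∈ ({Sum.inl l, Sum.inl i, j'} : Set (P ⊕ R)), h ≠ Sum.inl l → a h ≤ 0 := by
    intro h hh hhl
    rcases hh with rfl | rfl | hh
    · exact absurd rfl hhl
    · exact hai
    · rw [Set.mem_singleton_iff] at hh
      rw [hh]
      exact haj
  have hjN : j ∉ ({Sum.inl l, Sum.inl i, j'} : Set (P ⊕ R)) := by
    rintro (h1 | h1 | h1)
    · exact hjl h1
    · exact hji h1
    · exact hjj h1
  obtain ⟨r, r', hrr⟩ := SoftT_two_indices (hdims j)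
  have halg := isAlgebraic_of_neg D {Sum.inl l, Sum.inl i, j'} (Set.mem_insert _ _) a ha hN j hneg
    hjN r r'
  obtain ⟨G, e', hG, hG0, he', -, hz⟩ := Emb.exists_relation D.toEmb
    {h | h ∉ ({Sum.inl l, Sum.inl i, j'} : Set (P ⊕ R)) ∧ h ≠ j} j (fun hh => hh.2 rfl) r r' hrr halg
  have hel : e' (Sum.inl l) = 0 :=
    he' _ (fun hh => hh.1 (Or.inl rfl)) (Ne.symm hjl)
  have hei : e' (Sum.inl i) = 0 :=
    he' _ (fun hh => hh.1 (Or.inr (Or.inl rfl))) (Ne.symm hji)
  have hej : e' j' = 0 :=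
    he' _ (fun hh => hh.1 (Or.inr (Or.inr rfl))) (Ne.symm hjj)
  obtain ⟨H, hH⟩ := D.det_dvd h hdims hdet hadj G e' hG hel hei hz
  have hH0 : H ≠ 0 := by
    rintro rfl
    exact hG0 (by rw [hH, mul_zero])
  have hG1 : ∀ t : Fin (dims n m j' + 1),
      degreeOf (⟨j', t⟩ : Σ j : P ⊕ R, Fin (dims n m j + 1)) G = 0 := by
    intro t
    have h1 : degreeOf (⟨j', t⟩ : Σ j : P ⊕ R, Fin (dims n m j + 1)) G ≤ 0 := by
      rw [degreeOf_le_iff]
      intro c hc
      have h2 := hG c hc j'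
      rw [hej] at h2
      have h3 := (Finset.sum_eq_zero_iff.1 h2) t (Finset.mem_univ t)
      omega
    omega
  -- the determinant has degree `n + 1` in the group `j'`
  obtain ⟨c, hc⟩ := (MvPolynomial.support_nonempty).mpr hdet
  have h3 := det_multiHom T l i c hc j'
  have h4 : degLI e l i (n + 1) j' = (n + 1) * degs e j' := by
    simp [degLI, hjl', hji']
  rw [h4] at h3
  have h5 : ∀ t : Fin (dims n m j' + 1), c ⟨j', t⟩ = 0 := by
    intro t
    have h6 := monomial_le_degreeOf (⟨j', t⟩ : Σ j : P ⊕ R, Fin (dims n m j + 1)) hc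
    have h7 := hG1 t
    rw [hH, degreeOf_mul_eq hdet hH0] at h7
    omega
  rw [Finset.sum_eq_zero (fun t _ => h5 t)] at h3
  have h7 : 1 ≤ degs (P := P) e j' := by
    rcases j' with p | r
    · exact le_refl 1
    · exact he r
  have h6 : 0 < (n + 1) * degs e j' := Nat.mul_pos (Nat.succ_pos n) h7
  omega

/-- Suppose `a j < 0`. By `isAlgebraic_of_neg` with `N = {l, r}` and `Emb.exists_relation` there is a
relation `G ≠ 0` of multidegree `e'` with `e' l = e' r = 0`, against `no_relation`. -/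
theorem soft_large (D : Multilin K T l) (hdims : ∀ j, 1 ≤ dims (P := P) n m j) (r : R)
    (hr : n + 1 ≤ m r) (her : 1 ≤ e r) (a : P ⊕ R → ℤ) (ha : a ∈ D.EffZ) (har : a (Sum.inr r) ≤ 0)
    (j : P ⊕ R) (hjl : j ≠ Sum.inl l) (hjr : j ≠ Sum.inr r) : 0 ≤ a j := by
  by_contra hneg
  push Not at hneg
  have hN : ∀ h ∈ ({Sum.inl l, Sum.inr r} : Set (P ⊕ R)), h ≠ Sum.inl l → a h ≤ 0 := by
    intro h hh hhl
    rcases hh with rfl | hh
    · exact absurd rfl hhl
    · rw [Set.mem_singleton_iff] at hh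
      rw [hh]
      exact har
  have hjN : j ∉ ({Sum.inl l, Sum.inr r} : Set (P ⊕ R)) := by
    rintro (h1 | h1)
    · exact hjl h1
    · exact hjr h1
  obtain ⟨s, s', hss⟩ := SoftT_two_indices (hdims j)
  have halg := isAlgebraic_of_neg D {Sum.inl l, Sum.inr r} (Set.mem_insert _ _) a ha hN j hneg
    hjN s s'
  obtain ⟨G, e', hG, hG0, he', -, hz⟩ := Emb.exists_relation D.toEmb
    {h | h ∉ ({Sum.inl l, Sum.inr r} : Set (P ⊕ R)) ∧ h ≠ j} j (fun hh => hh.2 rfl) s s' hss halg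
  have hel : e' (Sum.inl l) = 0 :=
    he' _ (fun hh => hh.1 (Or.inl rfl)) (Ne.symm hjl)
  have her' : e' (Sum.inr r) = 0 :=
    he' _ (fun hh => hh.1 (Or.inr rfl)) (Ne.symm hjr)
  exact hG0 (no_relation D r hr her G e' hG hel her' hz)

end Pool.Agent.LibGMX
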