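import Pool.Agent.LibGMW.Main
import Pool.Agent.LibGMX.Key
import Pool.Agent.LibGMX.SoftT
import Pool.Agent.LibGMX.NumBig2
import Pool.Agent.LibGMX.NumQ

/-! Good minimal models of complete intersections of tensor type, all label sets. -/

open scoped Classical

namespace Pool.Agent.LibGMX

open Pool.Agent.LibGMM Pool.Agent.LibGMW

variable {P R : Type} [Fintype P] [Fintype R] {n : ℕ} {m e : R → ℕ}
  {K : Type} [Field K] [Algebra ℂ K] {T : FormTensor P n m e}

/-- The effective classes of `X_l` with coordinate `0` at the label `l`. -/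
def cone (D : ∀ l : P, Multilin K T l) (l : P) : Set (P ⊕ R → ℤ) :=
  {a | a (Sum.inl l) = 0 ∧ a ∈ (D l).EffZ}

theorem cone_flip (D : ∀ l : P, Multilin K T l) (hs : ∀ l i, l ≠ i → (D l).Small i) (l i : P)
    (h : l ≠ i) (a : P ⊕ R → ℤ) (ha : a ∈ cone D l) : LibGMW.flip n e l i a ∈ cone D i := by
  obtain ⟨τ, -, hτ⟩ := exists_flop (D l) (D i) h (hs _ _ h) (hs _ _ h.symm)
  refine ⟨?_, hτ a ha.2⟩
  simp [LibGMW.flip, h.symm]

theorem exists_ne_of_card (hP : 2 ≤ Fintype.card P) (l : P) : ∃ i, l ≠ i := by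
  have : Nontrivial P := Fintype.one_lt_card_iff_nontrivial.1 (by omega)
  obtain ⟨i, hi⟩ := exists_ne l
  exact ⟨i, hi.symm⟩

theorem one_le_dims (hn : 1 ≤ n) (hm : ∀ r, 1 ≤ m r) : ∀ j, 1 ≤ dims (P := P) n m j := by
  rintro (p | r)
  · exact hn
  · exact hm r

section

variable (D : ∀ l : P, Multilin K T l) (hn : 1 ≤ n) (hm : ∀ r, 1 ≤ m r) (he : ∀ r, 1 ≤ e r)
  (hdet : ∀ l i, l ≠ i → (matP T l i).det ≠ 0) (hs : ∀ l i, l ≠ i → (D l).Small i)

include hn hm he hdet hs

theorem cone_soft (hn2 : 2 ≤ n) (l i : P) (h : l ≠ i) (j : P) (hjl : j ≠ l) (hji : j ≠ i)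
    (a : P ⊕ R → ℤ) (ha : a ∈ cone D l) (hai : a (Sum.inl i) ≤ 0) : 0 ≤ a (Sum.inl j) :=
  (D l).soft h (one_le_dims hn hm) (hdet _ _ h) (hs _ _ h).1 (Sum.inl j)
    (fun h' => hjl (Sum.inl_injective h')) (fun h' => hji (Sum.inl_injective h')) hn2 le_rfl a
    ha.2 hai

theorem cone_soft_two (l i j h : P) (hli : l ≠ i) (hlj : l ≠ j) (hlh : l ≠ h) (hij : i ≠ j)
    (hih : i ≠ h) (hjh : j ≠ h) (a : P ⊕ R → ℤ) (ha : a ∈ cone D l) (hai : a (Sum.inl i) ≤ 0)
    (haj : a (Sum.inl j) ≤ 0) : 0 ≤ a (Sum.inl h) :=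
  soft_two (D l) hli (one_le_dims hn hm) (hdet _ _ hli) (hs _ _ hli).1 he (Sum.inl h) (Sum.inl j)
    (fun h' => hlh (Sum.inl_injective h').symm) (fun h' => hih (Sum.inl_injective h').symm)
    (fun h' => hlj (Sum.inl_injective h').symm) (fun h' => hij (Sum.inl_injective h').symm)
    (fun h' => hjh (Sum.inl_injective h').symm) a ha.2 hai haj

/-- The sum of the coordinates with labels in `P` is not negative. -/
theorem cone_sumP (hc : 3 ≤ n * (Fintype.card P - 2)) (l : P)
    (a : P ⊕ R → ℤ) (ha : a ∈ cone D l) : 0 ≤ ∑ p : P, a (Sum.inl p) := by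
  by_cases hn1 : n = 1
  · subst hn1
    refine sumP_nonneg_one e (cone D) (fun l a ha => ha.1) (cone_flip D hs) ?_ (by omega) l a ha
    intro l i j h hli hlj hlh hij hih hjh a ha hai haj
    exact cone_soft_two D hn hm he hdet hs l i j h hli hlj hlh hij hih hjh a ha hai haj
  have hn2 : 2 ≤ n := by omega
  have hP3 : 3 ≤ Fintype.card P := by
    by_contra hcon
    have h0 : Fintype.card P - 2 = 0 := by omega
    rw [h0] at hc
    omega
  refine sumP_nonneg n hn e (by omega) (cone D) (fun l a ha => ha.1)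
    (cone_flip D hs) (cone_soft D hn hm he hdet hs hn2) ?_ l a ha
  intro hP3 l i j hli hlj hij a ha hneg
  rw [hP3] at hc
  exact key (D l) (by omega) he hm (hdet l) (hs l) i j hli hlj hij a ha.2 hneg

/-- Termination for real effective classes, if the sum of the coordinates with labels in `P` is never
negative, or there are few labels. -/
theorem cone_terminate (hP : 2 ≤ Fintype.card P)
    (hc : n * (Fintype.card P - 2) ≠ 2) (l : P)
    (N : ℕ) (c : Fin N → ℝ) (hc0 : ∀ k, 0 < c k) (a : Fin N → P ⊕ R → ℤ)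
    (ha : ∀ k, a k ∈ cone D l) :
    ∃ w, Valid l w ∧ ∀ p : P, 0 ≤ ∑ k, c k * ((act n e l w (a k) (Sum.inl p) : ℤ) : ℝ) := by
  by_cases hP2 : Fintype.card P = 2
  · exact terminate_two n e hP2 l N c a fun k => (ha k).1
  by_cases hc3 : 3 ≤ n * (Fintype.card P - 2)
  · refine terminateP n e (by rw [mul_comm]; omega) hP l N c hc0 a (fun k => (ha k).1)
      fun w hw k => ?_
    refine cone_sumP D hn hm he hdet hs hc3 (lab l w) _ ?_
    exact ⟨act_lab n e l w hw (a k) (ha k).1, act_effZ D hs l w hw (a k) (ha k).2⟩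
  · have h1 : 1 ≤ Fintype.card P - 2 := by omega
    have h2 : n ≤ n * (Fintype.card P - 2) := Nat.le_mul_of_pos_right n (by omega)
    have h3 : Fintype.card P - 2 ≤ n * (Fintype.card P - 2) := Nat.le_mul_of_pos_left _ (by omega)
    have hn1 : n = 1 := by omega
    have hP3 : Fintype.card P = 3 := by omega
    subst hn1
    obtain ⟨w, hw, hw'⟩ := terminate_three e hP3 l (fun j => ∑ k, c k * (a k j : ℝ))
      (Finset.sum_eq_zero fun k _ => by rw [(ha k).1]; simp)
    refine ⟨w, hw, fun p => ?_⟩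
    have h4 := hw' p
    rw [act_sum 1 e l w N c (fun k j => (a k j : ℝ))] at h4
    simp only [act_real] at h4
    exact h4

/-- A class with a negative coordinate at a label `r` in `R`: there is a sequence of flops after which
all coordinates with labels in `P` are `≥ 0`, and the coordinate at `r` is negative. -/
theorem cone_word (hP : 2 ≤ Fintype.card P) (hdim : 4 ≤ n * (Fintype.card P - 2) + ∑ r, m r)
    (l : P) (a : P ⊕ R → ℤ) (ha : a ∈ cone D l) (r : R) (har : a (Sum.inr r) < 0) :
    ∃ w, Valid l w ∧ (∀ p, 0 ≤ act n e l w a (Sum.inl p)) ∧ act n e l w a (Sum.inr r) < 0 := by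
  by_cases hmr : 2 ≤ m r
  · refine ⟨[], trivial, fun p => ?_, har⟩
    change 0 ≤ a (Sum.inl p)
    by_cases hp : l = p
    · rw [← hp, ha.1]
    · by_contra hneg
      push Not at hneg
      have h1 := (D l).soft hp (one_le_dims hn hm) (hdet _ _ hp) (hs _ _ hp).1 (Sum.inr r)
        (by simp) (by simp) hmr (he r) a ha.2 hneg.le
      omega
  by_cases hP2 : Fintype.card P = 2
  · refine exists_nonneg_word n e (cone D) (fun l a ha => ha.1) (cone_flip D hs) r
      (fun a => - ∑ p : P, a (Sum.inl p)) ?_ ?_ l a ha har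
    · intro l a ha har i hi
      have hli : l ≠ i := by
        rintro rfl
        rw [ha.1] at hi
        exact lt_irrefl _ hi
      have h1 : ∀ p ∈ Finset.univ, p ≠ i → a (Sum.inl p) = 0 := by
        intro p _ hp
        have h2 : p = l := by
          by_contra hpl
          have h3 : ({l, i, p} : Finset P).card = 3 := by
            rw [Finset.card_eq_three]
            exact ⟨l, i, p, hli, Ne.symm hpl, Ne.symm hp, rfl⟩
          have h4 : ({l, i, p} : Finset P).card ≤ Fintype.card P := Finset.card_le_univ _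
          omega
        rw [h2, ha.1]
      rw [Finset.sum_eq_single i h1 (fun h => absurd (Finset.mem_univ i) h)]
      linarith
    · intro l i hli a ha har hi
      change - ∑ p : P, LibGMW.flip n e l i a (Sum.inl p) < - ∑ p : P, a (Sum.inl p)
      rw [sumP_flip n e l i hli a ha.1, hP2]
      push_cast
      linarith
  by_cases hR : ∃ r₂ : R, r₂ ≠ r
  · obtain ⟨r₂, hr₂⟩ := hR
    refine exists_nonneg_word n e (cone D) (fun l a ha => ha.1) (cone_flip D hs) r
      (fun a => a (Sum.inr r₂)) ?_ ?_ l a ha har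
    · intro l a ha har i hi
      have hli : l ≠ i := by
        rintro rfl
        rw [ha.1] at hi
        exact lt_irrefl _ hi
      by_contra hneg
      push Not at hneg
      have h1 := soft_two (D l) hli (one_le_dims hn hm) (hdet _ _ hli) (hs _ _ hli).1 he
        (Sum.inr r) (Sum.inr r₂) (by simp) (by simp) (by simp) (by simp)
        (fun h => hr₂ (Sum.inr_injective h).symm) a ha.2 hi.le hneg.le
      omega
    · intro l i hli a ha har hi
      change LibGMW.flip n e l i a (Sum.inr r₂) < a (Sum.inr r₂)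
      have h5 : LibGMW.flip n e l i a (Sum.inr r₂) =
          a (Sum.inr r₂) + ((n * e r₂ : ℕ) : ℤ) * a (Sum.inl i) := by
        simp [LibGMW.flip]
      rw [h5]
      have h6 : (0 : ℤ) < ((n * e r₂ : ℕ) : ℤ) := by
        exact_mod_cast Nat.mul_pos hn (he r₂)
      have h7 := mul_neg_of_pos_of_neg h6 hi
      linarith
  push Not at hR
  have hsum : ∑ r', m r' = 1 := by
    rw [Finset.sum_eq_single r (fun r' _ h => absurd (hR r') h)
      (fun h => absurd (Finset.mem_univ r) h)]
    have := hm r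
    omega
  have hc : 3 ≤ n * (Fintype.card P - 2) := by omega
  refine exists_nonneg_word n e (cone D) (fun l a ha => ha.1) (cone_flip D hs) r
    (fun a => ∑ p : P, a (Sum.inl p)) ?_ ?_ l a ha har
  · intro l a ha har i hi
    exact cone_sumP D hn hm he hdet hs hc l a ha
  · intro l i hli a ha har hi
    change ∑ p : P, LibGMW.flip n e l i a (Sum.inl p) < ∑ p : P, a (Sum.inl p)
    rw [sumP_flip n e l i hli a ha.1]
    have h1 : (0 : ℤ) < ((Fintype.card P : ℤ) - 2) * n - 2 := by
      have h2 : ((Fintype.card P - 2 : ℕ) : ℤ) = (Fintype.card P : ℤ) - 2 := by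
        rw [Nat.cast_sub hP]; norm_num
      have h3 : (3 : ℤ) ≤ n * ((Fintype.card P - 2 : ℕ) : ℤ) := by exact_mod_cast hc
      rw [h2, mul_comm] at h3
      linarith
    have h2 := mul_neg_of_pos_of_neg h1 hi
    linarith

end

/-- The cones of real effective classes: bigness is invariant under flops. -/
theorem big_transfer (D : ∀ l : P, Multilin K T l) (hs : ∀ l i, l ≠ i → (D l).Small i) (l : P)
    (w : List P) (hw : Valid l w) (b : P ⊕ R → ℝ)
    (hb : ∃ ε : ℝ, 0 < ε ∧ (fun j => act n e l w b j - ε) ∈ (D (lab l w)).EffR) :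
    ∃ ε : ℝ, 0 < ε ∧ (fun j => b j - ε) ∈ (D l).EffR := by
  refine big_of_act n e (fun l => (D l).EffR) (fun l b hb b' hb' => (D l).effR_add hb hb')
    (fun l b hb => (D l).effR_of_nonneg hb) (fun l b b' h hb => (D l).effR_congr b b' h hb)
    ?_ l w hw b hb
  intro l i h b hb
  obtain ⟨τ, hτ, -⟩ := exists_flop (D l) (D i) h (hs _ _ h) (hs _ _ h.symm)
  exact hτ.effR hb

section

variable (D : ∀ l : P, Multilin K T l) (hn : 1 ≤ n) (hm : ∀ r, 1 ≤ m r) (he : ∀ r, 1 ≤ e r)
  (hdet : ∀ l i, l ≠ i → (matP T l i).det ≠ 0) (hs : ∀ l i, l ≠ i → (D l).Small i)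

include hn hm he hdet hs

/-- An effective class with a negative coordinate at a label `r` in `R`: its sum with the canonical
class (and so the sum of the canonical class with a positive multiple of it) is big. -/
theorem big_of_neg (hP : 2 ≤ Fintype.card P) (hdim : 4 ≤ n * (Fintype.card P - 2) + ∑ r, m r)
    (κ : P ⊕ R → ℝ) (hκP : ∀ p, κ (Sum.inl p) = 0) (hκR : ∀ r, 0 ≤ κ (Sum.inr r))
    (hκ0 : ∀ r, κ (Sum.inr r) = 0 → n + 2 ≤ m r)
    (l : P) (a : P ⊕ R → ℤ) (ha : a ∈ cone D l) (r : R) (har : a (Sum.inr r) < 0) (c : ℝ)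
    (hc : 0 < c) :
    ∃ ε : ℝ, 0 < ε ∧ (fun j => κ j + c * (a j : ℝ) - ε) ∈ (D l).EffR := by
  obtain ⟨w, hw, hw1, hw2⟩ := cone_word D hn hm he hdet hs hP hdim l a ha r har
  refine big_transfer D hs l w hw (fun j => κ j + c * (a j : ℝ)) ?_
  have h1 : act n e l w (fun j => κ j + c * (a j : ℝ)) =
      fun j => κ j + c * ((act n e l w a j : ℤ) : ℝ) := by
    have h2 : (fun j => κ j + c * (a j : ℝ)) = κ + c • fun j => (a j : ℝ) := by
      funext j
      simp
    rw [h2, act_add, act_smul, act_fix n e l w κ hκP, act_real]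
    funext j
    simp
  rw [h1]
  set l' := lab l w with hl'
  set b := act n e l w a with hb
  have hbZ : b ∈ (D l').EffZ := act_effZ D hs l w hw a ha.2
  have hbl : b (Sum.inl l') = 0 := act_lab n e l w hw a ha.1
  have hdims := one_le_dims (P := P) hn hm
  obtain ⟨i, hi⟩ := exists_ne_of_card hP l'
  have hflipR : ∀ l i, l ≠ i → ∀ b ∈ (D l).EffR, LibGMW.flip n e l i b ∈ (D i).EffR := by
    intro l i h b hb
    obtain ⟨τ, hτ, -⟩ := exists_flop (D l) (D i) h (hs _ _ h) (hs _ _ h.symm)
    exact hτ.effR hb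
  refine big_add n e (fun l => (D l).EffR) (fun l b hb b' hb' => (D l).effR_add hb hb')
    (fun l c hc b hb => (D l).effR_smul hc hb)
    (fun l b hb => (D l).effR_of_nonneg hb) (fun l b b' h hb => (D l).effR_congr b b' h hb)
    hflipR l' ⟨i, hi⟩ κ hκP hκR (fun j => c * (b j : ℝ)) ?_ ?_ ?_ ?_
  · exact (D l').effR_smul hc.le ((D l').effZ_sub_effR hbZ)
  · intro p _
    exact mul_nonneg hc.le (by exact_mod_cast hw1 p)
  · intro p p' hp hp' hpp h0
    have h0' : b (Sum.inl p) = 0 := by
      have h3 := (mul_eq_zero.1 h0).resolve_left hc.ne'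
      exact_mod_cast h3
    have h4 : 0 < b (Sum.inl p') := by
      by_contra hneg
      push Not at hneg
      have h5 := soft_two (D l') hp hdims (hdet _ _ hp) (hs _ _ hp).1 he (Sum.inr r) (Sum.inl p')
        (by simp) (by simp) (fun h => hp' (Sum.inl_injective h).symm)
        (fun h => hpp (Sum.inl_injective h).symm) (by simp) b hbZ h0'.le hneg
      omega
    exact mul_pos hc (by exact_mod_cast h4)
  · intro r' hr'
    have h3 := hκ0 r' hr'
    have h4 : 0 < b (Sum.inr r') := by
      by_contra hneg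
      push Not at hneg
      have hrr : r ≠ r' := by
        rintro rfl
        have h6 := (D l').nonneg_of_large hi hdims (hdet _ _ hi) (hs _ _ hi).1 he r h3 b hbZ
        omega
      have h5 := soft_large (D l') hdims r' (by omega) (he r') b hbZ hneg (Sum.inr r) (by simp)
        (fun h => hrr (Sum.inr_injective h))
      omega
    exact mul_pos hc (by exact_mod_cast h4)

end

end Pool.Agent.LibGMX
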