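import Pool.Agent.LibGMX.Main

/-! The main theorem. -/

open scoped Classical

namespace Pool.Agent.LibGMX

open Pool.Agent.LibGMM Pool.Agent.LibGMW

variable {P R : Type} [Fintype P] [Fintype R] {n : ℕ} {m e : R → ℕ}
  {K : Type} [Field K] [Algebra ℂ K] {T : FormTensor P n m e}

/-- The main theorem. -/
theorem goodMinimalModel (hn : 1 ≤ n) (hm : ∀ r, 1 ≤ m r) (he : ∀ r, 1 ≤ e r)
    (hP : 2 ≤ Fintype.card P)
    (hdim : 4 ≤ n * (Fintype.card P - 2) + ∑ r, m r)
    (D : ∀ l : P, Multilin K T l)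
    (hdet : ∀ l i, l ≠ i → (matP T l i).det ≠ 0) (hs : ∀ l i, l ≠ i → (D l).Small i)
    (ω : TopForm K) (hω : ω ≠ 0) (l : P) (Δ : DVal K → ℝ) (hΔ : IsKlt (D l).model ω Δ)
    (hspan : ∃ δ : P ⊕ R → ℝ, (D l).model.RLinEq Δ fun Q => ∑ j, δ j * (D l).hyp j Q)
    (hcase : (PseudoEffective (D l).model (lcDiv ω Δ) ∧ ∀ r, n + 2 ≤ m r) ∨
      (¬ (D l).model.Big (lcDiv ω Δ) ∧
        ∀ r, m r + 1 ≤ (n + 1) * e r ∧ (e r = 1 → m r ≠ n))) :
    ∃ (l' : P) (σ : K ≃ₐ[ℂ] K), IsGoodMinimalModel (D l).model ω Δ ((D l').model.map σ) := by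
  have hdims := one_le_dims (P := P) hn hm
  have hex := exists_ne_of_card hP
  obtain ⟨i, hi⟩ := hex l
  -- the canonical class
  obtain ⟨u, hu⟩ := (D l).canonical_class hi hdims (hdet _ _ hi) (hs _ _ hi) he ω hω
  set κ : P ⊕ R → ℝ := Sum.elim (fun _ => 0) (fun r => ((n : ℝ) + 1) * e r - m r - 1) with hκ
  have hκP : ∀ p, κ (Sum.inl p) = 0 := fun p => rfl
  have hcan : ∀ Q, (D l).model.IsPrimeDiv Q →
      (canOrd Q ω : ℝ) = ∑ j, κ j * (D l).hyp j Q + Q.ord u := by
    intro Q hQ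
    rw [hu Q hQ]
    congr 1
    have hil : (Sum.inl i : P ⊕ R) ≠ Sum.inl l := fun h' => hi (Sum.inl_injective h').symm
    rw [← Finset.add_sum_erase Finset.univ (fun j => κ j * (D l).hyp j Q)
      (Finset.mem_univ (Sum.inl l)),
      ← Finset.add_sum_erase (Finset.univ.erase (Sum.inl l)) (fun j => κ j * (D l).hyp j Q)
      (a := Sum.inl i) (Finset.mem_erase.2 ⟨hil, Finset.mem_univ _⟩)]
    rw [hκP, hκP, zero_mul, zero_mul, zero_add, zero_add]
    refine Finset.sum_congr rfl fun j _ => ?_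
    congr 1
    rcases j with p | r
    · change ((n : ℝ) + 1) * ((1 : ℕ) : ℝ) - (n : ℝ) - 1 = 0
      push_cast
      ring
    · rfl
  obtain ⟨δ, f, hf⟩ := hspan
  -- normalisation
  set δ' : P ⊕ R → ℝ := Function.update δ (Sum.inl l) 0 with hδ'
  have hδδ' : ∀ j, j ≠ Sum.inl l → δ j = δ' j := fun j hj => by
    rw [hδ', Function.update_of_ne hj]
  have hδ'0 : δ' (Sum.inl l) = 0 := by rw [hδ', Function.update_self]
  have hf' : ∀ Q, (D l).model.IsPrimeDiv Q → Δ Q = ∑ j, δ' j * (D l).hyp j Q + ordR Q f := by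
    intro Q hQ
    rw [← (D l).sum_hyp_congr δ δ' hδδ' Q]
    exact hf Q hQ
  have hδeff : δ' ∈ (D l).EffR := ⟨f, fun Q hQ => by
    have h1 := hf' Q hQ
    have h2 := hΔ.nonneg Q hQ
    linarith⟩
  have hD : (D l).model.RLinEq (lcDiv ω Δ) fun Q => ∑ j, (κ + δ') j * (D l).hyp j Q := by
    refine ⟨Finsupp.single u 1 + f, fun Q hQ => ?_⟩
    simp only [lcDiv, ordR_add, ordR_single, Pi.add_apply, add_mul, Finset.sum_add_distrib]
    rw [hcan Q hQ, hf' Q hQ]
    ring
  -- decomposition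
  obtain ⟨N, c, a₀, hc, ha₀, hδa₀⟩ := (D l).effR_decomp δ' hδeff
  set a : Fin N → P ⊕ R → ℤ := fun k => Function.update (a₀ k) (Sum.inl l) 0 with ha
  have haZ : ∀ k, a k ∈ cone D l := fun k => ⟨by simp [ha],
    (D l).effZ_congr (a₀ k) (a k) (fun j hj => by simp [ha, hj]) (ha₀ k)⟩
  have hδa : δ' = fun j => ∑ k, c k * (a k j : ℝ) := by
    funext j
    by_cases hj : j = Sum.inl l
    · subst hj
      rw [hδ'0]
      symm
      apply Finset.sum_eq_zero
      intro k _
      rw [(haZ k).1]; simp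
    · rw [hδa₀ j]
      refine Finset.sum_congr rfl fun k _ => ?_
      simp [ha, hj]
  have haw : ∀ w, Valid l w → ∀ k, act n e l w (a k) ∈ cone D (lab l w) := fun w hw k =>
    ⟨act_lab n e l w hw (a k) (haZ k).1, act_effZ D hs l w hw (a k) (haZ k).2⟩
  have hκ2 : (∀ r, m r + 1 ≤ (n + 1) * e r ∧ (e r = 1 → m r ≠ n)) →
      (∀ r, 0 ≤ κ (Sum.inr r)) ∧ ∀ r, κ (Sum.inr r) = 0 → n + 2 ≤ m r := by
    intro hm2
    refine ⟨fun r => ?_, fun r hr => ?_⟩
    · change 0 ≤ ((n : ℝ) + 1) * e r - m r - 1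
      have h1 : ((m r + 1 : ℕ) : ℝ) ≤ (((n + 1) * e r : ℕ) : ℝ) := by exact_mod_cast (hm2 r).1
      push_cast at h1
      linarith
    · change ((n : ℝ) + 1) * e r - m r - 1 = 0 at hr
      have h1 : ((m r + 1 : ℕ) : ℝ) = (((n + 1) * e r : ℕ) : ℝ) := by
        push_cast
        linarith
      have h2 : m r + 1 = (n + 1) * e r := by exact_mod_cast h1
      have h3 := he r
      by_cases h4 : e r = 1
      · rw [h4] at h2
        exact absurd (by omega) ((hm2 r).2 h4)
      · have h5 : (n + 1) * 2 ≤ (n + 1) * e r := Nat.mul_le_mul_left _ (by omega)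
        omega
  -- the coordinates with labels in `R` are not negative
  have hrest : ∀ w, Valid l w → ∀ k, ∀ r : R, 0 ≤ act n e l w (a k) (Sum.inr r) := by
    rcases hcase with ⟨-, hm⟩ | ⟨hbig, hm2⟩
    · intro w hw k r
      obtain ⟨i', hi'⟩ := hex (lab l w)
      exact (D (lab l w)).nonneg_of_large hi' hdims (hdet _ _ hi') (hs _ _ hi').1 he r (hm r) _
        (haw w hw k).2
    obtain ⟨hκR, hκ0⟩ := hκ2 hm2
    have hnb : ∀ ε : ℝ, 0 < ε → (fun j => (κ + δ') j - ε) ∉ (D l).EffR := fun ε hε h =>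
      hbig ((D l).big_of_class _ _ hD ε hε h)
    intro w hw k r
    by_contra hneg
    push Not at hneg
    have h1 := big_of_neg D hn hm he hdet hs hP hdim κ hκP hκR hκ0 (lab l w)
      (act n e l w (a k)) (haw w hw k) r hneg (c k) (hc k)
    have h2 : act n e l w (κ + c k • fun j => (a k j : ℝ)) =
        fun j => κ j + c k * ((act n e l w (a k) j : ℤ) : ℝ) := by
      rw [act_add, act_smul, act_fix n e l w κ hκP, act_real]
      funext j
      simp
    obtain ⟨ε, hε, h3⟩ := big_transfer D hs l w hw (κ + c k • fun j => (a k j : ℝ))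
      (by rw [h2]; exact h1)
    apply hnb ε hε
    have hadd : ∀ b ∈ (D l).EffR, ∀ b' ∈ (D l).EffR, b + b' ∈ (D l).EffR :=
      fun b hb b' hb' => (D l).effR_add hb hb'
    have hcongr : ∀ (b b' : P ⊕ R → ℝ), (∀ j, j ≠ Sum.inl l → b j = b' j) →
        b ∈ (D l).EffR → b' ∈ (D l).EffR := fun b b' h hb => (D l).effR_congr b b' h hb
    have h4 : (fun j => ∑ k' ∈ Finset.univ.erase k, c k' * (a k' j : ℝ)) ∈ (D l).EffR := by
      have h5 : ∀ s : Finset (Fin N), (fun j => ∑ k' ∈ s, c k' * (a k' j : ℝ)) ∈ (D l).EffR := by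
        intro s
        induction s using Finset.induction_on with
        | empty => exact (D l).effR_of_nonneg (fun j => by simp)
        | insert k' s hk' ih =>
          have h6 := hadd _ ((D l).effR_smul (hc k').le ((D l).effZ_sub_effR (haZ k').2)) _ ih
          refine hcongr _ _ (fun j _ => ?_) h6
          rw [Finset.sum_insert hk']
          rfl
      exact h5 _
    have h6 := hadd _ h3 _ h4
    refine hcongr _ _ (fun j _ => ?_) h6
    simp only [Pi.add_apply, Pi.smul_apply, smul_eq_mul, hδa]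
    rw [← Finset.add_sum_erase Finset.univ (fun k => c k * (a k j : ℝ)) (Finset.mem_univ k)]
    ring
  -- termination
  obtain ⟨w, hw, hwpos⟩ : ∃ w, Valid l w ∧
      ∀ p : P, 0 ≤ ∑ k, c k * ((act n e l w (a k) (Sum.inl p) : ℤ) : ℝ) := by
    by_cases hc4 : n * (Fintype.card P - 2) ≠ 2
    · exact cone_terminate D hn hm he hdet hs hP hc4 l N c hc a haZ
    push Not at hc4
    obtain ⟨r₀⟩ : Nonempty R := by
      by_contra hR0
      have : IsEmpty R := not_nonempty_iff.1 hR0
      rw [hc4] at hdim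
      simp at hdim
    have hR1 : 1 ≤ Fintype.card R := Fintype.card_pos_iff.2 ⟨r₀⟩
    set Z : P → Set (P ⊕ R → ℤ) := fun l' => {b | b ∈ cone D l' ∧
      ∀ w, Valid l' w → ∀ r : R, 0 ≤ act n e l' w b (Sum.inr r)} with hZ
    have hZa : ∀ w, Valid l w → ∀ k, act n e l w (a k) ∈ Z (lab l w) := by
      intro w hw k
      refine ⟨haw w hw k, fun w' hw' r => ?_⟩
      have h1 := hrest (w' ++ w) (valid_append l w w' hw hw') k r
      rwa [act_append] at h1
    have hZflip : ∀ l' i', l' ≠ i' → ∀ b ∈ Z l', LibGMW.flip n e l' i' b ∈ Z i' := by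
      intro l' i' h b hb
      refine ⟨cone_flip D hs l' i' h b hb.1, fun w' hw' r => ?_⟩
      have h1 := hb.2 (w' ++ [i']) (valid_append l' [i'] w' ⟨h, trivial⟩ hw') r
      rwa [act_append] at h1
    have hZrest : ∀ l', ∀ b ∈ Z l', ∀ r : R, 0 ≤ b (Sum.inr r) := fun l' b hb r =>
      hb.2 [] trivial r
    have hS : ∀ w, Valid l w → ∀ k, 0 ≤ ∑ j, act n e l w (a k) j := by
      intro w hw k
      by_cases hn1 : n = 1
      · subst hn1
        refine sum_nonneg_one e he Z (fun l b hb => hb.1.1) hZflip ?_ r₀ hZrest (lab l w) _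
          (hZa w hw k)
        intro l i j h hli hlj hlh hij hih hjh a ha hai haj
        exact cone_soft_two D hn hm he hdet hs l i j h hli hlj hlh hij hih hjh a ha.1 hai haj
      · have hn2 : n = 2 := by
          have h1 : n ∣ 2 := ⟨_, hc4.symm⟩
          have h2 := Nat.le_of_dvd (by norm_num) h1
          omega
        have hP3 : Fintype.card P = 3 := by
          rw [hn2] at hc4
          omega
        refine sum_nonneg_of_soft n hn e he (by omega) Z (fun l b hb => hb.1.1) hZflip ?_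
          (lab l w) (act n e l w (a k)) (hZa w hw k) (hrest w hw k) ?_
        · rintro l' i' h (p | r) hjl hji b hb hbi
          · exact cone_soft D hn hm he hdet hs (by omega) l' i' h p (fun h => hjl (by rw [h]))
              (fun h => hji (by rw [h])) b hb.1 hbi
          · exact hZrest _ b hb r
        · intro i' hi' r
          exact hrest (i' :: w) ⟨hi', hw⟩ k r
    refine terminate n e ?_ hP l N c hc a (fun k => (haZ k).1) hS
    have h1 : Fintype.card R ≤ ∑ r, e r := by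
      rw [← Finset.card_univ, Finset.card_eq_sum_ones]
      exact Finset.sum_le_sum fun r _ => he r
    have h2 : Fintype.card P + ∑ r, e r - 2 = (Fintype.card P - 2) + ∑ r, e r := by omega
    rw [h2, add_mul, mul_comm (Fintype.card P - 2), hc4]
    have h3 : 0 < (∑ r, e r) * n := Nat.mul_pos (by omega) hn
    omega
  obtain ⟨τ, hτ⟩ := exists_trans D hs l w hw
  have hwδ' : act n e l w δ' = fun j => ∑ k, c k * ((act n e l w (a k) j : ℤ) : ℝ) := by
    rw [hδa, act_sum n e l w N c (fun k j => (a k j : ℝ))]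
    funext j
    refine Finset.sum_congr rfl fun k _ => ?_
    rw [act_real]
  have hwδ : act n e l w (κ + δ') = κ + fun j => ∑ k, c k * ((act n e l w (a k) j : ℤ) : ℝ) := by
    rw [act_add, act_fix n e l w κ hκP, hwδ']
  have hpos : ∀ j, 0 ≤ (act n e l w (κ + δ')) j := by
    rintro (p | r)
    · rw [hwδ]
      simp only [Pi.add_apply, hκP, zero_add]
      exact hwpos p
    rcases hcase with ⟨hpe, hm⟩ | ⟨-, hm2⟩
    · refine nonneg_of_limit _ (act n e l w (fun _ => (1 : ℝ)) (Sum.inr r)) fun ε hε => ?_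
      have h1 : (κ + δ' + ε • fun _ => (1 : ℝ)) ∈ (D l).EffR := by
        obtain ⟨g, hg⟩ := hpe ε hε
        obtain ⟨f₁, hf₁⟩ := hD
        refine ⟨g + f₁, fun Q hQ => ?_⟩
        have h2 := hg Q hQ
        have h3 := hf₁ Q hQ
        simp only at h2 h3
        rw [(D l).hyperplane_eq] at h2
        simp only [Pi.add_apply, Pi.smul_apply, smul_eq_mul, mul_one, add_mul,
          Finset.sum_add_distrib, ← Finset.mul_sum] at h3 ⊢
        rw [ordR_add]
        linarith
      have h2 := hτ.effR h1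
      rw [act_add, act_smul] at h2
      obtain ⟨N', c', a', hc', ha', hb'⟩ := (D (lab l w)).effR_decomp _ h2
      have h3 := hb' (Sum.inr r)
      simp only [Pi.add_apply, Pi.smul_apply, smul_eq_mul] at h3
      rw [h3]
      obtain ⟨i', hi'⟩ := hex (lab l w)
      refine Finset.sum_nonneg fun k _ => mul_nonneg (hc' k).le ?_
      exact_mod_cast (D (lab l w)).nonneg_of_large hi' hdims (hdet _ _ hi') (hs _ _ hi').1 he r
        (hm r) _ (ha' k)
    · rw [hwδ]
      simp only [Pi.add_apply]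
      refine add_nonneg ((hκ2 hm2).1 r) (Finset.sum_nonneg fun k _ => mul_nonneg (hc k).le ?_)
      exact_mod_cast hrest w hw k r
  -- the good minimal model
  set X' := (D (lab l w)).model.map τ.symm with hX'
  have hprime : ∀ Q, X'.IsPrimeDiv Q ↔ (D l).model.IsPrimeDiv Q := by
    intro Q
    have h1 := NormalModel.isPrimeDiv_map τ.symm (D (lab l w)).model (Q.map τ)
    rw [DVal.map_map_symm] at h1
    rw [hX', h1]
    exact hτ.prime Q
  have hss : X'.Semiample (lcDiv ω Δ) := by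
    apply NormalModel.semiample_map
    obtain ⟨g, hg⟩ := hτ.cls (κ + δ')
    obtain ⟨f₁, hf₁⟩ := hD
    obtain ⟨f₂, hf₂⟩ := exists_ordR_map τ.symm (f₁ - g)
    refine (D (lab l w)).semiample_of_nonneg _ _ hpos ⟨f₂, fun Q hQ => ?_⟩
    have hQ' : (D l).model.IsPrimeDiv (Q.map τ.symm) := by
      rw [← hτ.prime, DVal.map_symm_map]; exact hQ
    have h1 := hf₁ _ hQ'
    have h2 := hg _ hQ'
    simp only [DVal.map_symm_map] at h2
    rw [← hf₂, ordR_sub]
    beta_reduce at h1 ⊢
    rw [h1, h2]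
    ring
  obtain ⟨N', c', G, hc', hG, f'', hf''⟩ := id hss
  have hklt := klt_of_semiample (D l).model X' ω Δ hΔ (fun Q hQ => (hprime Q).1 hQ) N' c' G f''
    hc' hG hf'' (fun Q hQ => (hf'' Q ((hprime Q).2 hQ)).ge)
  exact ⟨lab l w, τ.symm, fun Q hQ => (hprime Q).1 hQ, hklt.1, hss,
    fun Q p f₃ hQ hQ' => absurd ((hprime Q).2 hQ) hQ'⟩

end Pool.Agent.LibGMX
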