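import Pool.Agent.LibGMW.NumLow
import Pool.Agent.LibGMW.NumTerm

/-! The coordinates with labels in `P`: termination. -/

open scoped Classical

namespace Pool.Agent.LibGMX

open Pool.Agent.LibGMW

variable {P R : Type}

theorem lab_append (l : P) (w w' : List P) : lab l (w' ++ w) = lab (lab l w) w' := by
  cases w' with
  | nil => rfl
  | cons i w' => rfl

theorem act_append {A : Type} [CommRing A] (n : ℕ) (e : R → ℕ) (l : P) (w w' : List P)
    (b : P ⊕ R → A) : act n e l (w' ++ w) b = act n e (lab l w) w' (act n e l w b) := by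
  induction w' with
  | nil => rfl
  | cons i w' ih =>
    change flip n e (lab l (w' ++ w)) i (act n e l (w' ++ w) b) =
      flip n e (lab (lab l w) w') i (act n e (lab l w) w' (act n e l w b))
    rw [ih, lab_append]

theorem valid_append (l : P) (w w' : List P) (hw : Valid l w) (hw' : Valid (lab l w) w') :
    Valid l (w' ++ w) := by
  induction w' with
  | nil => exact hw
  | cons i w' ih =>
    refine ⟨?_, ih hw'.2⟩
    have h1 := hw'.1
    rw [← lab_append] at h1
    exact h1

/-- The coordinates with labels in `P`. -/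
def resP {A : Type} (b : P ⊕ R → A) : P ⊕ Empty → A := Sum.elim (fun p => b (Sum.inl p)) Empty.elim

theorem act_resP {A : Type} [CommRing A] (n : ℕ) (e : R → ℕ) (l : P) (w : List P)
    (b : P ⊕ R → A) : act n (Empty.elim : Empty → ℕ) l w (resP b) = resP (act n e l w b) := by
  induction w with
  | nil => rfl
  | cons i w ih =>
    change flip n (Empty.elim : Empty → ℕ) (lab l w) i (act n Empty.elim l w (resP b)) =
      resP (flip n e (lab l w) i (act n e l w b))
    rw [ih]
    funext j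
    rcases j with p | r
    · by_cases h1 : p = lab l w
      · subst h1
        simp [LibGMW.flip, resP]
      · by_cases h2 : p = i
        · subst h2
          have h3 : (Sum.inl p : P ⊕ Empty) ≠ Sum.inl (lab l w) := fun h => h1 (Sum.inl_injective h)
          have h4 : (Sum.inl p : P ⊕ R) ≠ Sum.inl (lab l w) := fun h => h1 (Sum.inl_injective h)
          simp [LibGMW.flip, resP, h3, h1]
        · have h3 : (Sum.inl p : P ⊕ Empty) ≠ Sum.inl (lab l w) := fun h => h1 (Sum.inl_injective h)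
          have h4 : (Sum.inl p : P ⊕ R) ≠ Sum.inl (lab l w) := fun h => h1 (Sum.inl_injective h)
          have h5 : (Sum.inl p : P ⊕ Empty) ≠ Sum.inl i := fun h => h2 (Sum.inl_injective h)
          have h6 : (Sum.inl p : P ⊕ R) ≠ Sum.inl i := fun h => h2 (Sum.inl_injective h)
          simp [LibGMW.flip, resP, h3, h5, h1, h2]
    · exact r.elim

variable [Fintype P] [Fintype R]

/-- Termination, if the sum of the coordinates with labels in `P` is never negative. -/
theorem terminateP (n : ℕ) (e : R → ℕ) (hne : 2 < (Fintype.card P - 2) * n)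
    (hP : 2 ≤ Fintype.card P) (l : P)
    (N : ℕ) (c : Fin N → ℝ) (hc : ∀ k, 0 < c k) (a : Fin N → P ⊕ R → ℤ)
    (ha : ∀ k, a k (Sum.inl l) = 0)
    (hS : ∀ w, Valid l w → ∀ k, 0 ≤ ∑ p : P, act n e l w (a k) (Sum.inl p)) :
    ∃ w, Valid l w ∧ ∀ p : P, 0 ≤ ∑ k, c k * ((act n e l w (a k) (Sum.inl p) : ℤ) : ℝ) := by
  obtain ⟨w, hw, h⟩ := terminate n (Empty.elim : Empty → ℕ) (by simpa using hne) hP l N c hc
    (fun k => resP (a k)) (fun k => ha k) (fun w hw k => by
      rw [act_resP n e]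
      rw [Fintype.sum_sum_type]
      simp only [Finset.univ_eq_empty, Finset.sum_empty, add_zero]
      exact hS w hw k)
  refine ⟨w, hw, fun p => ?_⟩
  have h1 := h p
  simp only [act_resP n e] at h1
  exact h1

/-- The sum of the coordinates with labels in `P` of an effective class is not negative. -/
theorem sumP_nonneg (n : ℕ) (hn : 1 ≤ n) (e : R → ℕ)
    (hcard : 4 ≤ Fintype.card P ∨ Fintype.card P = 3)
    (Z : P → Set (P ⊕ R → ℤ)) (hZ : ∀ l, ∀ a ∈ Z l, a (Sum.inl l) = 0)
    (hflip : ∀ l i, l ≠ i → ∀ a ∈ Z l, flip n e l i a ∈ Z i)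
    (hsoft : ∀ l i, l ≠ i → ∀ j, j ≠ l → j ≠ i → ∀ a ∈ Z l, a (Sum.inl i) ≤ 0 →
      0 ≤ a (Sum.inl j))
    (hkey : Fintype.card P = 3 → ∀ l i j, l ≠ i → l ≠ j → i ≠ j → ∀ a ∈ Z l, a (Sum.inl i) < 0 →
      - a (Sum.inl i) ≤ (n - 1) * a (Sum.inl j))
    (l : P) (a : P ⊕ R → ℤ) (ha : a ∈ Z l) : 0 ≤ ∑ p : P, a (Sum.inl p) := by
  by_cases hall : ∀ p : P, 0 ≤ a (Sum.inl p)
  · exact Finset.sum_nonneg fun p _ => hall p
  push Not at hall
  obtain ⟨i, hi⟩ := hall
  have hal := hZ l a ha
  have hli : l ≠ i := by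
    rintro rfl
    rw [hal] at hi
    exact lt_irrefl _ hi
  have hnn : ∀ j, j ≠ i → 0 ≤ a (Sum.inl j) := by
    intro j hji
    by_cases hjl : j = l
    · rw [hjl, hal]
    · exact hsoft l i hli j hjl hji a ha hi.le
  have hn' : (1 : ℤ) ≤ n := by exact_mod_cast hn
  have hfl : ∀ j, j ≠ l → j ≠ i → flip n e l i a (Sum.inl j) =
      a (Sum.inl j) + n * a (Sum.inl i) := by
    intro j hjl hji
    simp [LibGMW.flip, hjl, hji]
  have hkey' : ∃ j, j ≠ l ∧ j ≠ i ∧ 0 ≤ a (Sum.inl j) + a (Sum.inl i) := by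
    have hcardS : Fintype.card P - 2 ≤ ((Finset.univ.erase l).erase i).card := by
      rw [Finset.card_erase_of_mem (Finset.mem_erase.mpr ⟨hli.symm, Finset.mem_univ i⟩),
        Finset.card_erase_of_mem (Finset.mem_univ l), Finset.card_univ]
      omega
    rcases hcard with hcard | hcard
    · obtain ⟨h, hh, h', hh', hhh⟩ := Finset.one_lt_card.mp (by omega : 1 <
        ((Finset.univ.erase l).erase i).card)
      rw [Finset.mem_erase, Finset.mem_erase] at hh hh'
      by_cases hneg : 0 ≤ a (Sum.inl h) + n * a (Sum.inl i)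
      · exact ⟨h, hh.2.1, hh.1, by nlinarith⟩
      · push Not at hneg
        refine ⟨h', hh'.2.1, hh'.1, ?_⟩
        have h1 := hsoft i h hh.1.symm h' hh'.1 (Ne.symm hhh) _ (hflip l i hli a ha) (by
          rw [hfl _ hh.2.1 hh.1]
          exact hneg.le)
        rw [hfl _ hh'.2.1 hh'.1] at h1
        nlinarith
    · obtain ⟨j, hj⟩ := Finset.card_pos.mp (by omega : 0 < ((Finset.univ.erase l).erase i).card)
      rw [Finset.mem_erase, Finset.mem_erase] at hj
      refine ⟨j, hj.2.1, hj.1, ?_⟩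
      by_cases hneg : 0 ≤ a (Sum.inl j) + n * a (Sum.inl i)
      · nlinarith
      · push Not at hneg
        have h1 := hkey hcard i j l hj.1.symm hli.symm hj.2.1 _ (hflip l i hli a ha) (by
          rw [hfl _ hj.2.1 hj.1]
          exact hneg)
        rw [hfl _ hj.2.1 hj.1] at h1
        have h2 : flip n e l i a (Sum.inl l) = - a (Sum.inl i) := by simp [LibGMW.flip]
        rw [h2] at h1
        nlinarith
  obtain ⟨j, hjl, hji, hj⟩ := hkey'
  rw [← Finset.add_sum_erase _ _ (Finset.mem_univ i),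
    ← Finset.add_sum_erase _ _ (Finset.mem_erase.mpr ⟨hji, Finset.mem_univ j⟩)]
  have h2 : 0 ≤ ∑ x ∈ (Finset.univ.erase i).erase j, a (Sum.inl x) := by
    refine Finset.sum_nonneg fun x hx => hnn x ?_
    rw [Finset.mem_erase, Finset.mem_erase] at hx
    exact hx.2.1
  linarith

/-- The change of the sum of the coordinates with labels in `P`. -/
theorem sumP_flip (n : ℕ) (e : R → ℕ) (l i : P) (h : l ≠ i) (b : P ⊕ R → ℤ)
    (hb : b (Sum.inl l) = 0) :
    ∑ p : P, flip n e l i b (Sum.inl p) = ∑ p : P, b (Sum.inl p) +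
      (((Fintype.card P : ℤ) - 2) * n - 2) * b (Sum.inl i) := by
  have h1 := sum_flip n (Empty.elim : Empty → ℕ) l i h (resP b) hb
  have h2 : flip n (Empty.elim : Empty → ℕ) l i (resP b) = resP (flip n e l i b) :=
    act_resP n e l [i] b
  rw [h2, Fintype.sum_sum_type, Fintype.sum_sum_type] at h1
  simp only [Finset.univ_eq_empty, Finset.sum_empty, add_zero] at h1
  exact h1

/-- A sequence of flops along negative coordinates, for one class with a negative coordinate at the
label `r`. -/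
theorem exists_nonneg_word (n : ℕ) (e : R → ℕ) (Z : P → Set (P ⊕ R → ℤ))
    (hZ : ∀ l, ∀ a ∈ Z l, a (Sum.inl l) = 0)
    (hflip : ∀ l i, l ≠ i → ∀ a ∈ Z l, flip n e l i a ∈ Z i) (r : R) (μ : (P ⊕ R → ℤ) → ℤ)
    (hμ0 : ∀ l, ∀ a ∈ Z l, a (Sum.inr r) < 0 → ∀ i, a (Sum.inl i) < 0 → 0 ≤ μ a)
    (hμ1 : ∀ l i, l ≠ i → ∀ a ∈ Z l, a (Sum.inr r) < 0 → a (Sum.inl i) < 0 →
      μ (flip n e l i a) < μ a)
    (l : P) (a : P ⊕ R → ℤ) (ha : a ∈ Z l) (har : a (Sum.inr r) < 0) :
    ∃ w, Valid l w ∧ (∀ p, 0 ≤ act n e l w a (Sum.inl p)) ∧ act n e l w a (Sum.inr r) < 0 := by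
  induction hN : (μ a).toNat using Nat.strong_induction_on generalizing l a with
  | _ N ih =>
    by_cases hall : ∀ p : P, 0 ≤ a (Sum.inl p)
    · exact ⟨[], trivial, hall, har⟩
    push Not at hall
    obtain ⟨i, hi⟩ := hall
    have hli : l ≠ i := by
      rintro rfl
      rw [hZ l a ha] at hi
      exact lt_irrefl _ hi
    have h1 := hμ0 l a ha har i hi
    have h2 := hμ1 l i hli a ha har hi
    have h3 := hflip l i hli a ha
    have h4 : flip n e l i a (Sum.inr r) < 0 := by
      have h5 : flip n e l i a (Sum.inr r) = a (Sum.inr r) + ((n * e r : ℕ) : ℤ) * a (Sum.inl i) := by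
        simp [LibGMW.flip]
      rw [h5]
      have h6 : ((n * e r : ℕ) : ℤ) * a (Sum.inl i) ≤ 0 :=
        mul_nonpos_of_nonneg_of_nonpos (by positivity) hi.le
      linarith
    by_cases hall' : ∀ p : P, 0 ≤ flip n e l i a (Sum.inl p)
    · exact ⟨[i], ⟨hli, trivial⟩, hall', h4⟩
    push Not at hall'
    obtain ⟨i', hi'⟩ := hall'
    have h5 := hμ0 i _ h3 h4 i' hi'
    obtain ⟨w, hw, hw1, hw2⟩ := ih (μ (flip n e l i a)).toNat (by omega) i _ h3 h4 rfl
    refine ⟨w ++ [i], valid_append l [i] w ⟨hli, trivial⟩ hw, ?_, ?_⟩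
    · rw [act_append]
      exact hw1
    · rw [act_append]
      exact hw2

end Pool.Agent.LibGMX
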