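import Pool.Agent.LibGMW.Liou
import Pool.Agent.LibGMW.CompatCls

/-! TASK SOFTN: effective classes with several coordinates that are not positive. -/

open scoped Classical

namespace Pool.Agent.LibGMX

open Pool.Agent.LibGMM Pool.Agent.LibGMW MvPolynomial

variable {P R : Type} [Fintype P] [Fintype R] {n : ℕ} {m e : R → ℕ}
  {K : Type} [Field K] [Algebra ℂ K] {T : FormTensor P n m e} {l : P}

/-- The function `g_s`. -/
private noncomputable def SoftN_g (D : Multilin K T l) (j : P ⊕ R) (a : P ⊕ R → ℤ) (g : Kˣ)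
    (s : Fin (dims n m j + 1)) : Kˣ :=
  g * (∏ h ∈ Finset.univ.erase j, D.x h 0 ^ (- a h)) * D.x j s ^ (- a j)

private theorem SoftN_ord (D : Multilin K T l) (j : P ⊕ R) (a : P ⊕ R → ℤ) (g : Kˣ)
    (s : Fin (dims n m j + 1)) (Q : DVal K) :
    Q.ord (SoftN_g D j a g s : K) = Q.ord (g : K) +
      ∑ h ∈ Finset.univ.erase j, (- a h) * Q.ord (D.x h 0 : K) +
      (- a j) * Q.ord (D.x j s : K) := by
  unfold SoftN_g
  rw [Units.val_mul, Units.val_mul,
    Q.ord_mul' (mul_ne_zero (Units.ne_zero _) (Units.ne_zero _)) (Units.ne_zero _),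
    Q.ord_mul' (Units.ne_zero _) (Units.ne_zero _),
    Units.coe_prod, Q.ord_prod _ _ (fun h _ => Units.ne_zero _), Units.val_zpow_eq_zpow_val,
    Q.ord_zpow]
  congr 2
  refine Finset.sum_congr rfl fun h _ => ?_
  rw [Units.val_zpow_eq_zpow_val, Q.ord_zpow]

private theorem SoftN_ratio (D : Multilin K T l) (j : P ⊕ R) (a : P ⊕ R → ℤ) (g : Kˣ)
    (s s' : Fin (dims n m j + 1)) :
    (SoftN_g D j a g s : K) / (SoftN_g D j a g s' : K) =
      ((D.x j s : K) / (D.x j s' : K)) ^ (- a j) := by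
  have h1 : SoftN_g D j a g s / SoftN_g D j a g s' = (D.x j s / D.x j s') ^ (- a j) := by
    unfold SoftN_g
    rw [div_zpow, mul_div_mul_left_eq_div]
  have h2 := congrArg (Units.val) h1
  rw [Units.val_div_eq_div_val, Units.val_zpow_eq_zpow_val, Units.val_div_eq_div_val] at h2
  exact h2

/-- Let `a` be an effective class, `a h ≤ 0` for all `h ∈ N`, `h ≠ l`, and `a j < 0`. Then the ratios of
the coordinates of the `j`-th factor are algebraic over the field generated by the coordinates of all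
factors `h ∉ N`, `h ≠ j`. Same proof as `Emb.isAlgebraic_of_neg` in LibGMW/Fib3.lean and
`Multilin.soft` in LibGMW/Soft.lean: let
`g_s = g * ∏ (x h 0) ^ (- a h) * (x j s) ^ (- a j)`, the product over all `h ≠ j`; along a prime divisor
on which the ratios of coordinates of the factors `h ∉ N`, `h ≠ j` have order zero,
`a h * hyp h = - a h * ord (x h 0)` for these `h`, `a h * hyp h ≤ - a h * ord (x h 0)` for `h ∈ N`,
`h ≠ l` (`neg_hyp_le`, `a h ≤ 0`), both sides are zero for `h = l` (`D.hyp_self`, `D.one`), and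
`a j * hyp j ≤ - a j * ord (x j s)`. So `ord g_s ≥ 0`; `Emb.liouville` and `IsAlgebraic.of_pow`. -/
theorem isAlgebraic_of_neg (D : Multilin K T l) (N : Set (P ⊕ R)) (hlN : Sum.inl l ∈ N)
    (a : P ⊕ R → ℤ) (ha : a ∈ D.EffZ) (hN : ∀ h ∈ N, h ≠ Sum.inl l → a h ≤ 0) (j : P ⊕ R)
    (hj : a j < 0) (hjN : j ∉ N) (r r' : Fin (dims n m j + 1)) :
    IsAlgebraic (D.base {h | h ∉ N ∧ h ≠ j}) ((D.x j r : K) / D.x j r') := by
  obtain ⟨g, hg⟩ := ha
  have halg : ∀ s, IsAlgebraic (D.base {h | h ∉ N ∧ h ≠ j}) (SoftN_g D j a g s : K) := by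
    intro s
    by_contra htr
    obtain ⟨Q, hQ, hQneg, hQS⟩ := D.liouville {h | h ∉ N ∧ h ≠ j} (SoftN_g D j a g s : K) htr
    have h1 := hg Q hQ
    rw [← Finset.add_sum_erase _ _ (Finset.mem_univ j)] at h1
    have h2 : ∑ h ∈ Finset.univ.erase j, (a h : ℝ) * D.hyp h Q ≤
        ∑ h ∈ Finset.univ.erase j, (((- a h) * Q.ord (D.x h 0 : K) : ℤ) : ℝ) := by
      refine Finset.sum_le_sum fun h hh => ?_
      rw [Finset.mem_erase] at hh
      by_cases hl : h = Sum.inl l
      · subst hl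
        rw [D.hyp_self, mul_zero, D.one, Units.val_one, Q.ord_one, mul_zero, Int.cast_zero]
      · by_cases hhN : h ∈ N
        · have h3 := D.neg_hyp_le h 0 Q
          have h4 : (a h : ℝ) ≤ 0 := by exact_mod_cast hN h hhN hl
          push_cast
          nlinarith
        · obtain ⟨t, ht⟩ := D.exists_hyp_eq h Q
          have h3 := hQS h ⟨hhN, hh.1⟩ t 0
          rw [ht, h3]
          push_cast
          linarith
    have h3 := D.neg_hyp_le j s Q
    have h5 : (a j : ℝ) * D.hyp j Q ≤ (((- a j) * Q.ord (D.x j s : K) : ℤ) : ℝ) := by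
      have h6 : (0 : ℝ) ≤ -(a j : ℝ) := by
        have : (a j : ℝ) < 0 := by exact_mod_cast hj
        linarith
      push_cast
      nlinarith
    have h8 : (0 : ℝ) ≤ (Q.ord (SoftN_g D j a g s : K) : ℝ) := by
      rw [SoftN_ord]
      push_cast at h1 h2 h5 ⊢
      linarith
    have h9 : (0 : ℤ) ≤ Q.ord (SoftN_g D j a g s : K) := by exact_mod_cast h8
    omega
  have h1 := (halg r).mul (halg r').inv
  rw [← div_eq_mul_inv, SoftN_ratio] at h1
  have h2 : - a j = ((- a j).toNat : ℤ) := (Int.toNat_of_nonneg (by omega)).symm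
  rw [h2, zpow_natCast] at h1
  exact IsAlgebraic.of_pow (by omega) h1

end Pool.Agent.LibGMX
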